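import Pool.Agent.Q187.Korn.Dense

/-!
# Approximation of vector fields smooth on the closed ball
-/

open MeasureTheory Set Metric MvPolynomial Filter Topology
open scoped ContDiff

namespace Q187.Korn

variable {n : ℕ}

/-- the gradient matrix: `grad u x i j = ∂ⱼ uᵢ (x)` -/
noncomputable def grad (u : E n → E n) (x : E n) (i j : Fin n) : ℝ :=
  (fderiv ℝ u x (EuclideanSpace.single j 1)) i

lemma uniq : UniqueDiffOn ℝ (closedBall (0 : E n) 1) :=
  uniqueDiffOn_convex (convex_closedBall _ _)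
    ⟨0, by rw [mem_interior_iff_mem_nhds]; exact closedBall_mem_nhds _ one_pos⟩

lemma grad_bound {u : E n → E n} (hu : ContDiffOn ℝ ∞ u (closedBall 0 1)) :
    ∃ C, ∀ x ∈ ball (0 : E n) 1, ∀ i j, |grad u x i j| ≤ C := by
  have h1 := hu.continuousOn_fderivWithin uniq (by simp)
  obtain ⟨C, hC⟩ := (isCompact_closedBall (0 : E n) 1).exists_bound_of_continuousOn h1
  refine ⟨C, fun x hx i j => ?_⟩
  have h2 := hC x (ball_subset_closedBall hx)
  rw [fderivWithin_of_mem_nhds (closedBall_mem_nhds_of_mem hx)] at h2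
  unfold grad
  calc |(fderiv ℝ u x (EuclideanSpace.single j 1)) i|
      = ‖(fderiv ℝ u x (EuclideanSpace.single j 1)) i‖ := (Real.norm_eq_abs _).symm
    _ ≤ ‖fderiv ℝ u x (EuclideanSpace.single j 1)‖ := PiLp.norm_apply_le _ i
    _ ≤ ‖fderiv ℝ u x‖ * ‖(EuclideanSpace.single j (1 : ℝ) : E n)‖ :=
        ContinuousLinearMap.le_opNorm _ _
    _ ≤ C * 1 := by
        rw [PiLp.norm_single, norm_one]
        exact mul_le_mul_of_nonneg_right h2 zero_le_one
    _ = C := mul_one C

lemma grad_continuousOn {u : E n → E n} (hu : ContDiffOn ℝ ∞ u (closedBall 0 1)) (i j : Fin n) :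
    ContinuousOn (fun x => grad u x i j) (ball (0 : E n) 1) := by
  have h1 := (hu.mono ball_subset_closedBall).continuousOn_fderiv_of_isOpen isOpen_ball (by simp)
  unfold grad
  have h2 : ContinuousOn (fun x => fderiv ℝ u x (EuclideanSpace.single j 1)) (ball (0 : E n) 1) :=
    h1.clm_apply continuousOn_const
  exact (EuclideanSpace.proj i : E n →L[ℝ] ℝ).continuous.comp_continuousOn h2

/-- dilation and smooth cutoff -/
lemma exists_ext {u : E n → E n} (hu : ContDiffOn ℝ ∞ u (closedBall 0 1)) {r : ℝ} (hr0 : 0 < r)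
    (hr1 : r < 1) : ∃ g : E n → E n, ContDiff ℝ ∞ g ∧ ∀ x ∈ closedBall (0 : E n) 1, ∀ i j,
      grad g x i j = r * grad u (r • x) i j := by
  set δ := 1 / r - 1 with hδ
  have hδ0 : 0 < δ := by
    rw [hδ, sub_pos, lt_div_iff₀ hr0]; linarith
  let bf : ContDiffBump (0 : E n) := ⟨1 + δ / 3, 1 + 2 * δ / 3, by positivity, by linarith⟩
  have hrIn : bf.rIn = 1 + δ / 3 := rfl
  have hrOut : bf.rOut = 1 + 2 * δ / 3 := rfl
  have hsm : ∀ x : E n, ‖x‖ < 1 / r → ContDiffAt ℝ ∞ (fun y => u (r • y)) x := by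
    intro x hx
    have h1 : r • x ∈ ball (0 : E n) 1 := by
      rw [mem_ball_zero_iff, norm_smul, Real.norm_eq_abs, abs_of_pos hr0]
      rw [lt_div_iff₀ hr0] at hx
      linarith
    have h2 : ContDiffAt ℝ ∞ u (r • x) := hu.contDiffAt (closedBall_mem_nhds_of_mem h1)
    exact h2.comp x (contDiff_const_smul r).contDiffAt
  refine ⟨fun x => bf x • u (r • x), ?_, ?_⟩
  · rw [contDiff_iff_contDiffAt]
    intro x
    by_cases hx : ‖x‖ < 1 / r
    · exact bf.contDiffAt.smul (hsm x hx)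
    · have h1 : (fun x => bf x • u (r • x)) =ᶠ[𝓝 x] fun _ => 0 := by
        have h2 : {y : E n | 1 + 2 * δ / 3 < ‖y‖} ∈ 𝓝 x := by
          refine (isOpen_lt continuous_const continuous_norm).mem_nhds ?_
          simp only [mem_ofPred_eq]
          have h3 : 1 / r = 1 + δ := by rw [hδ]; ring
          rw [h3, not_lt] at hx
          linarith
        filter_upwards [h2] with y hy
        have h3 : bf y = 0 := bf.zero_of_le_dist (by
          rw [hrOut, dist_zero_right]; exact (le_of_lt hy))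
        rw [h3, zero_smul]
      exact contDiffAt_const.congr_of_eventuallyEq h1
  · intro x hx i j
    have hx1 : ‖x‖ ≤ 1 := by simpa using hx
    have h1 : (fun x => bf x • u (r • x)) =ᶠ[𝓝 x] fun y => u (r • y) := by
      have h2 : x ∈ ball (0 : E n) bf.rIn := by
        rw [mem_ball_zero_iff, hrIn]; linarith
      filter_upwards [bf.eventuallyEq_one_of_mem_ball h2] with y hy
      rw [hy]; simp
    have h2 : ‖x‖ < 1 / r := by
      rw [lt_div_iff₀ hr0]; nlinarith [norm_nonneg x]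
    have h1r : r • x ∈ ball (0 : E n) 1 := by
      rw [mem_ball_zero_iff, norm_smul, Real.norm_eq_abs, abs_of_pos hr0]
      rw [lt_div_iff₀ hr0] at h2
      linarith
    have h3 : DifferentiableAt ℝ u (r • x) :=
      (hu.contDiffAt (closedBall_mem_nhds_of_mem h1r)).differentiableAt (by simp)
    have h4 : HasFDerivAt (fun y : E n => r • y) (r • ContinuousLinearMap.id ℝ (E n)) x :=
      (hasFDerivAt_id x).const_smul r
    have h5 := h3.hasFDerivAt.comp x h4
    have h6 : fderiv ℝ (fun y => u (r • y)) x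
        = (fderiv ℝ u (r • x)).comp (r • ContinuousLinearMap.id ℝ (E n)) := h5.fderiv
    unfold grad
    rw [h1.fderiv_eq, h6]
    simp

lemma grad_comp {g : E n → E n} (hg : ContDiff ℝ ∞ g) (x : E n) (i j : Fin n) :
    grad g x i j = D j (fun y => g y i) x := by
  unfold grad D
  have h1 : HasFDerivAt g (fderiv ℝ g x) x := (hg.differentiable (by simp) x).hasFDerivAt
  have h2 := (EuclideanSpace.proj i : E n →L[ℝ] ℝ).hasFDerivAt.comp x h1
  have h3 : fderiv ℝ (fun y => g y i) x = (EuclideanSpace.proj i : E n →L[ℝ] ℝ).comp (fderiv ℝ g x) :=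
    h2.fderiv
  rw [h3]; rfl

theorem approx {u : E n → E n} (hu : ContDiffOn ℝ ∞ u (closedBall 0 1)) :
    ∃ (U : ℕ → Fin n → Pol n) (C : ℝ),
      (∀ k i j, ∀ x ∈ ball (0 : E n) 1, |ev (pderiv j (U k i)) x| ≤ C) ∧
      (∀ i j, ∀ x ∈ ball (0 : E n) 1,
        Tendsto (fun k => ev (pderiv j (U k i)) x) atTop (𝓝 (grad u x i j))) := by
  obtain ⟨C, hC⟩ := grad_bound hu
  have hr : ∀ k : ℕ, 0 < (1 : ℝ) - 1 / (k + 2) ∧ (1 : ℝ) - 1 / (k + 2) < 1 := by
    intro k
    have h0 : (0 : ℝ) < (k : ℝ) + 2 := by positivity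
    constructor
    · rw [sub_pos, div_lt_one h0]
      have : (0 : ℝ) ≤ k := Nat.cast_nonneg k
      linarith
    · have : (0 : ℝ) < 1 / (k + 2) := by positivity
      linarith
  choose g hg hgr using fun k : ℕ => exists_ext hu (hr k).1 (hr k).2
  have hgi : ∀ k i, ContDiff ℝ ∞ (fun y => g k y i) := fun k i =>
    (EuclideanSpace.proj i : E n →L[ℝ] ℝ).contDiff.comp (hg k)
  choose U hU using fun (k : ℕ) (i : Fin n) =>
    dense_poly (fun y => g k y i) (hgi k i) (ε := 1 / (k + 1)) (by positivity)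
  have hmem : ∀ (k : ℕ), ∀ x ∈ ball (0 : E n) 1, ((1 : ℝ) - 1 / (k + 2)) • x ∈ ball (0 : E n) 1 := by
    intro k x hx
    rw [mem_ball_zero_iff] at hx ⊢
    rw [norm_smul, Real.norm_eq_abs, abs_of_pos (hr k).1]
    nlinarith [norm_nonneg x, (hr k).1, (hr k).2]
  have hclose : ∀ (k : ℕ) (i j : Fin n), ∀ x ∈ ball (0 : E n) 1,
      |((1 : ℝ) - 1 / (k + 2)) * grad u (((1 : ℝ) - 1 / (k + 2)) • x) i j
        - ev (pderiv j (U k i)) x| ≤ 1 / (k + 1) := by
    intro k i j x hx
    have h1 := hU k i x (ball_subset_closedBall hx) j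
    rwa [← grad_comp (hg k), hgr k x (ball_subset_closedBall hx)] at h1
  refine ⟨U, C + 1, ?_, ?_⟩
  · intro k i j x hx
    have h1 := hclose k i j x hx
    have h2 := hC _ (hmem k x hx) i j
    have h3 : |((1 : ℝ) - 1 / (k + 2)) * grad u (((1 : ℝ) - 1 / (k + 2)) • x) i j| ≤ C := by
      rw [abs_mul, abs_of_pos (hr k).1]
      nlinarith [abs_nonneg (grad u (((1 : ℝ) - 1 / (k + 2)) • x) i j), (hr k).2, (hr k).1]
    have h4 : (1 : ℝ) / (k + 1) ≤ 1 := by
      rw [div_le_one (by positivity)]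
      have : (0 : ℝ) ≤ k := Nat.cast_nonneg k
      linarith
    have h5 := abs_sub_abs_le_abs_sub (ev (pderiv j (U k i)) x)
      (((1 : ℝ) - 1 / (k + 2)) * grad u (((1 : ℝ) - 1 / (k + 2)) • x) i j)
    rw [abs_sub_comm] at h5
    linarith
  · intro i j x hx
    have hr1 : Tendsto (fun k : ℕ => (1 : ℝ) - 1 / (k + 2)) atTop (𝓝 1) := by
      have h1 : Tendsto (fun k : ℕ => (1 : ℝ) / ((k : ℝ) + 2)) atTop (𝓝 0) := by
        have h2 := tendsto_one_div_atTop_nhds_zero_nat (𝕜 := ℝ)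
        have h3 := (tendsto_add_atTop_iff_nat 2).mpr h2
        refine h3.congr fun k => ?_
        push_cast; rfl
      simpa using h1.const_sub 1
    have h1 : Tendsto (fun k : ℕ => ((1 : ℝ) - 1 / (k + 2)) * grad u (((1 : ℝ) - 1 / (k + 2)) • x) i j)
        atTop (𝓝 (1 * grad u ((1 : ℝ) • x) i j)) := by
      refine hr1.mul ?_
      have h2 : Tendsto (fun k : ℕ => ((1 : ℝ) - 1 / (k + 2)) • x) atTop (𝓝 ((1 : ℝ) • x)) :=
        hr1.smul_const x
      have h3 : ContinuousAt (fun x => grad u x i j) ((1 : ℝ) • x) := by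
        rw [one_smul]
        exact (grad_continuousOn hu i j).continuousAt (isOpen_ball.mem_nhds hx)
      exact h3.tendsto.comp h2
    rw [one_mul, one_smul] at h1
    have h2 : Tendsto (fun k : ℕ => (1 : ℝ) / ((k : ℝ) + 1)) atTop (𝓝 0) :=
      tendsto_one_div_add_atTop_nhds_zero_nat
    have h3 : Tendsto (fun k : ℕ => ((1 : ℝ) - 1 / (k + 2)) * grad u (((1 : ℝ) - 1 / (k + 2)) • x) i j
        - ev (pderiv j (U k i)) x) atTop (𝓝 0) :=
      squeeze_zero_norm (fun k => by rw [Real.norm_eq_abs]; exact hclose k i j x hx) h2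
    have h4 := h1.sub h3
    simpa using h4

end Q187.Korn
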