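import Pool.Agent.Q187.Korn.Orth

/-!
# Decomposition of homogeneous solutions of the Navier system
-/

open MeasureTheory Set Metric MvPolynomial Filter Topology

namespace Q187.Korn

variable {n : ℕ}

/-- denominator -/
noncomputable def Dl (n : ℕ) (l : ℝ) : ℝ := 2 * (n + 2 * l - 2) * (n + l) - 4 * l
/-- coefficient `a` -/
noncomputable def al (n : ℕ) (μ l : ℝ) : ℝ := -((n + l) / (2 * μ) + 2) / Dl n l
/-- coefficient `b` -/
noncomputable def bl (n : ℕ) (μ l : ℝ) : ℝ := (2 * (n + 2 * l - 2) + l / μ) / Dl n l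
/-- coefficient `c1` -/
noncomputable def c1 (μ l : ℝ) : ℝ := (l - 1) * (μ + 1 / 2)
/-- coefficient `c2` -/
noncomputable def c2 (n : ℕ) (μ l : ℝ) : ℝ :=
  μ * (l + 1) * al n μ l + (al n μ l * (l - 1) + bl n μ l) / 2
/-- coefficient `c3` -/
noncomputable def c3 (n : ℕ) (μ l : ℝ) : ℝ :=
  μ * (l + 1) * bl n μ l + (2 * l * al n μ l + bl n μ l) / 2

lemma Dl_pos (hn : 3 ≤ n) {l : ℝ} (hl : 0 ≤ l) : 0 < Dl n l := by
  have h3 : (3 : ℝ) ≤ n := by exact_mod_cast hn
  unfold Dl
  nlinarith [mul_nonneg hl hl, mul_nonneg (sub_nonneg.mpr h3) hl]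

lemma rel1 (hn : 3 ≤ n) {μ l : ℝ} (hμ : 0 < μ) (hl : 0 ≤ l) :
    2 * l * al n μ l + (n + l) * bl n μ l = 1 := by
  have h := Dl_pos hn hl
  unfold al bl
  rw [mul_div_assoc', mul_div_assoc', ← add_div, div_eq_one_iff_eq h.ne']
  unfold Dl
  field_simp
  ring

lemma rel2 (hn : 3 ≤ n) {μ l : ℝ} (hμ : 0 < μ) (hl : 0 ≤ l) :
    μ * (al n μ l * (2 * (n + 2 * l - 2)) + 2 * bl n μ l) = - (1 / 2) := by
  have h := Dl_pos hn hl
  unfold al bl
  rw [div_mul_eq_mul_div, mul_div_assoc', ← add_div, mul_div_assoc', div_eq_iff h.ne']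
  unfold Dl
  field_simp
  ring

lemma rel3 (hn : 3 ≤ n) {μ l : ℝ} (hμ : 0 < μ) (hl : 0 ≤ l) :
    c2 n μ l * (l * (n + 2 * l - 2)) + c3 n μ l * l
      = c1 μ l * (al n μ l * (l * (n + 2 * l - 2)) + bl n μ l * l) := by
  have h1 := rel1 hn hμ hl
  have h2 := rel2 hn hμ hl
  unfold c2 c3 c1
  linear_combination l * h2 + l / 2 * h1

lemma c3_nonneg (hn : 3 ≤ n) {μ l : ℝ} (hμ : 0 < μ) (hl : 0 ≤ l) :
    c3 n μ l * (Dl n l * μ)
      = 1 / 2 * (2 * μ + 1) * (2 * (n + 2 * l - 2) * (l + 1) * μ - l * (l + n - 1)) := by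
  have h := Dl_pos hn hl
  unfold c3 al bl
  field_simp
  ring

lemma C_half : (C (1 / 2 : ℝ) : Pol n) * 2 = 1 := by
  rw [← C_ofNat2, ← C_mul]; norm_num

lemma BB_eq (μ : ℝ) (w : Fld n) (k : ℕ) (hw : ∀ i, (w i).IsHomogeneous k) (i : Fin n) :
    BB μ w i = C (μ * k) * w i + C (1 / 2) * (pderiv i (xd w) - w i) := by
  unfold BB
  rw [euler (w i) k (hw i), pd_xd, C_mul]
  ring

/-- the building blocks -/
lemma BB_T (μ : ℝ) (T : Fld n) (k : ℕ) (hw : ∀ i, (T i).IsHomogeneous k) (hx : xd T = 0)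
    (i : Fin n) : BB μ T i = C (μ * k - 1 / 2) * T i := by
  rw [BB_eq μ T k hw i, hx, map_zero, C_sub]
  ring

lemma xd_grad (p : Pol n) (d : ℕ) (hp : p.IsHomogeneous d) :
    xd (fun i => pderiv i p) = C (d : ℝ) * p := euler p d hp

lemma BB_grad (μ : ℝ) (p : Pol n) (k : ℕ) (hp : p.IsHomogeneous (k + 1)) (i : Fin n) :
    BB μ (fun i => pderiv i p) i = C (k * (μ + 1 / 2)) * pderiv i p := by
  rw [BB_eq μ _ k (fun i => hp.pderiv) i, xd_grad p (k + 1) hp, pderiv_C_mul]
  push_cast
  simp only [C_mul, C_add]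
  rw [C_1]
  ring

lemma BB_r2grad (μ : ℝ) (q : Pol n) (l : ℕ) (hq : q.IsHomogeneous l) (i : Fin n) :
    BB μ (fun i => r2 * pderiv i q) i
      = C (μ * (l + 1) + (l - 1) / 2) * (r2 * pderiv i q) + C (l : ℝ) * (X i * q) := by
  have h1 : xd (fun i => r2 * pderiv i q) = C (l : ℝ) * (r2 * q) := by
    unfold xd
    have : ∑ i, X i * (r2 * pderiv i q) = r2 * ∑ i, X i * pderiv i q := by
      rw [Finset.mul_sum]; exact Finset.sum_congr rfl fun i _ => by ring
    rw [this, euler q l hq]; ring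
  have h2 : BB μ (fun i => r2 * pderiv i q) i
      = C (μ * (l + 1)) * (r2 * pderiv i q)
        + C (1 / 2) * (pderiv i (xd (fun i => r2 * pderiv i q)) - r2 * pderiv i q) := by
    obtain _ | l := l
    · have h0 : ∀ k, pderiv k q = 0 := by
        intro k
        have h2 := hq
        rw [← totalDegree_zero_iff_isHomogeneous, totalDegree_eq_zero_iff_eq_C] at h2
        rw [h2, pderiv_C]
      unfold BB xd
      simp [h0]
    · rw [BB_eq μ _ (l + 2) (fun i => by
        have := r2_hom.mul (hq.pderiv (i := i))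
        simpa [add_comm] using this) i]
      push_cast
      rw [show μ * ((l : ℝ) + 2) = μ * ((l : ℝ) + 1 + 1) by ring]
  rw [h2, h1, pderiv_C_mul, pderiv_mul, pderiv_r2]
  have h3 := C_half (n := n)
  have h4 : (C (((l : ℝ) - 1) / 2) : Pol n) = C (1 / 2) * (C (l : ℝ) - 1) := by
    rw [← C_1, ← C_sub, ← C_mul]; congr 1; ring
  rw [C_add, h4]
  linear_combination (C (l : ℝ) * X i * q) * h3

lemma BB_Xq (μ : ℝ) (q : Pol n) (l : ℕ) (hq : q.IsHomogeneous l) (i : Fin n) :
    BB μ (fun i => X i * q) i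
      = C (1 / 2) * (r2 * pderiv i q) + C (μ * (l + 1) + 1 / 2) * (X i * q) := by
  have h1 : xd (fun i => X i * q) = r2 * q := by
    unfold xd r2
    rw [Finset.sum_mul]; exact Finset.sum_congr rfl fun i _ => by ring
  rw [BB_eq μ _ (l + 1) (fun i => by
    have := (isHomogeneous_X ℝ i).mul hq
    simpa [add_comm] using this) i, h1, pderiv_mul, pderiv_r2]
  push_cast
  rw [C_add]
  ring

lemma BB_add (μ : ℝ) (u w : Fld n) : BB μ (u + w) = BB μ u + BB μ w := by
  ext1 i
  unfold BB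
  simp only [Pi.add_apply, map_add, mul_add, Finset.sum_add_distrib]
  ring

lemma BB_smul (μ a : ℝ) (w : Fld n) : BB μ (fun i => C a * w i) = fun i => C a * BB μ w i := by
  ext1 i
  unfold BB
  simp only [pderiv_C_mul]
  have h : ∀ f : Fin n → Pol n, ∑ j, X j * (C a * f j) = C a * ∑ j, X j * f j := by
    intro f
    rw [Finset.mul_sum]; exact Finset.sum_congr rfl fun i _ => by ring
  rw [h, h]; ring

/-- the components: fields -/
noncomputable def HF (n : ℕ) (μ l : ℝ) (T : Fld n) (p q : Pol n) : Fld n :=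
  fun i => T i + pderiv i p + C (al n μ l) * (r2 * pderiv i q) + C (bl n μ l) * (X i * q)

lemma BB_HF (μ : ℝ) (T : Fld n) (p q : Pol n) (k l : ℕ) (hT : ∀ i, (T i).IsHomogeneous k)
    (hx : xd T = 0) (hp : p.IsHomogeneous (k + 1)) (hq : q.IsHomogeneous l) (i : Fin n) :
    BB μ (HF n μ l T p q) i = C (μ * k - 1 / 2) * T i + C (k * (μ + 1 / 2)) * pderiv i p
      + C (c2 n μ l) * (r2 * pderiv i q) + C (c3 n μ l) * (X i * q) := by
  have e : HF n μ l T p q = T + (fun i => pderiv i p) + (fun i => C (al n μ l) * (r2 * pderiv i q))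
      + fun i => C (bl n μ l) * (X i * q) := by
    ext1 i; rfl
  rw [e, BB_add, BB_add, BB_add]
  have e1 := BB_smul μ (al n μ l) (fun i => r2 * pderiv i q)
  have e2 := BB_smul μ (bl n μ l) (fun i => X i * q)
  simp only [Pi.add_apply, e1, e2]
  rw [BB_T μ T k hT hx i, BB_grad μ p k hp i, BB_r2grad μ q l hq i, BB_Xq μ q l hq i]
  have e3 : c2 n μ l = al n μ l * (μ * (l + 1) + (l - 1) / 2) + bl n μ l * (1 / 2) := by
    unfold c2; ring
  have e4 : c3 n μ l = al n μ l * l + bl n μ l * (μ * (l + 1) + 1 / 2) := by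
    unfold c3; ring
  rw [e3, e4]
  simp only [C_add, C_mul]
  ring

/-- decomposition of a homogeneous solution -/
lemma decomp (hn : 3 ≤ n) {μ : ℝ} (hμ : 0 < μ) (v : Fld n) (k : ℕ)
    (hv : ∀ i, (v i).IsHomogeneous k) (hL : LL μ v = 0) :
    ∃ (T : Fld n) (p : Pol n), (∀ i, (T i).IsHomogeneous k) ∧ (∀ i, lap (T i) = 0) ∧ xd T = 0 ∧
      dv T = 0 ∧ p.IsHomogeneous (k + 1) ∧ lap p = 0 ∧ (dv v).IsHomogeneous (k - 1) ∧
      lap (dv v) = 0 ∧ v = HF n μ ((k - 1 : ℕ) : ℝ) T p (dv v) := by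
  set l : ℕ := k - 1 with hl
  set q : Pol n := dv v with hq
  have hqh : q.IsHomogeneous l := IsHomogeneous.sum _ _ _ fun i _ => (hv i).pderiv
  have hLi : ∀ i, C μ * lap (v i) + C (1 / 2) * pderiv i q = 0 := fun i => congrFun hL i
  have hql : lap q = 0 := by
    have h1 : dv (fun i => C μ * lap (v i) + C (1 / 2) * pderiv i q) = 0 := by
      have : (fun i => C μ * lap (v i) + C (1 / 2) * pderiv i q) = (0 : Fld n) := by
        ext1 i; exact hLi i
      rw [this]; unfold dv; simp
    have h2 : dv (fun i => C μ * lap (v i) + C (1 / 2) * pderiv i q)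
        = C μ * lap q + C (1 / 2) * lap q := by
      rw [hq, lap_dv]
      unfold dv
      simp only [map_add, pderiv_C_mul, Finset.sum_add_distrib, ← Finset.mul_sum]
      congr 2
      exact lap_dv v
    rw [h2, ← add_mul, ← C_add] at h1
    rcases mul_eq_zero.mp h1 with h | h
    · exfalso
      rw [C_eq_zero] at h
      linarith
    · exact h
  have hlc : (0 : ℝ) ≤ (l : ℝ) := Nat.cast_nonneg l
  have hr1 := rel1 hn hμ hlc
  have hr2 := rel2 hn hμ hlc
  set a := al n μ l with ha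
  set b := bl n μ l with hb
  set t : Fld n := fun i => v i - C a * (r2 * pderiv i q) - C b * (X i * q) with ht
  have hth : ∀ i, (t i).IsHomogeneous k := by
    intro i
    rcases Nat.eq_zero_or_pos k with hk | hk
    · have hq0 : q = 0 := by
        rw [hq]
        refine Finset.sum_eq_zero fun i _ => ?_
        have h2 := hv i
        rw [hk, ← totalDegree_zero_iff_isHomogeneous, totalDegree_eq_zero_iff_eq_C] at h2
        rw [h2, pderiv_C]
      simp only [ht, hq0]
      simpa using hv i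
    · refine ((hv i).sub ?_).sub ?_
      · have h2 : (r2 * pderiv i q).IsHomogeneous k := by
          rcases Nat.eq_zero_or_pos l with hl0 | hl0
          · have h3 := hqh
            rw [hl0, ← totalDegree_zero_iff_isHomogeneous, totalDegree_eq_zero_iff_eq_C] at h3
            rw [h3, pderiv_C, mul_zero]
            exact isHomogeneous_zero _ _ _
          · have h3 := r2_hom.mul (hqh.pderiv (i := i))
            have h4 : 2 + (l - 1) = k := by omega
            rwa [h4] at h3
        exact h2.C_mul a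
      · have h3 := (isHomogeneous_X ℝ i).mul hqh
        have h4 : 1 + l = k := by omega
        rw [h4] at h3
        exact h3.C_mul b
  have hdt : dv t = 0 := by
    have h1 : dv t = q - C a * (∑ i, pderiv i (r2 * pderiv i q)) - C b * ∑ i, pderiv i (X i * q) := by
      rw [ht]
      unfold dv
      simp only [map_sub, pderiv_C_mul, Finset.sum_sub_distrib, ← Finset.mul_sum]
      rfl
    have h2 : ∑ i, pderiv i (r2 * pderiv i q) = C (2 * (l : ℝ)) * q := by
      simp only [pderiv_mul, pderiv_r2, Finset.sum_add_distrib, ← Finset.mul_sum]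
      have h3 : ∑ i, pderiv i (pderiv i q) = 0 := hql
      have h4 : ∑ i : Fin n, (2 : Pol n) * X i * pderiv i q = 2 * ∑ i, X i * pderiv i q := by
        rw [Finset.mul_sum]; exact Finset.sum_congr rfl fun i _ => by ring
      rw [h3, h4, euler q l hqh, C_mul, C_ofNat2]; ring
    have h3 : ∑ i, pderiv i (X i * q) = C (n + l : ℝ) * q := by
      simp only [pderiv_mul, pderiv_X_self, Finset.sum_add_distrib, one_mul]
      have hcn : (C (n : ℝ) : Pol n) = (n : Pol n) := map_natCast C n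
      rw [euler q l hqh, Finset.sum_const, Finset.card_univ, Fintype.card_fin, nsmul_eq_mul,
        C_add, hcn]
      ring
    have h4 := congrArg (C : ℝ → Pol n) hr1
    rw [h1, h2, h3]
    simp only [C_add, C_mul, C_1] at h4 ⊢
    linear_combination (-q) * h4
  have hlt : ∀ i, lap (t i) = 0 := by
    intro i
    have h1 : lap (t i) = lap (v i) - C a * lap (r2 * pderiv i q) - C b * lap (X i * q) := by
      rw [ht]
      simp only [lap_sub, lap_C_mul]
    have h2 : lap (r2 * pderiv i q) = C (2 * ((n : ℝ) + 2 * l - 2)) * pderiv i q := by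
      rw [lap_r2_mul, lap_pd, hql, map_zero, mul_zero, add_zero]
      rcases Nat.eq_zero_or_pos l with hl0 | hl0
      · have h3 := hqh
        rw [hl0, ← totalDegree_zero_iff_isHomogeneous, totalDegree_eq_zero_iff_eq_C] at h3
        rw [h3, pderiv_C]
        simp
      · rw [euler (pderiv i q) (l - 1) hqh.pderiv]
        have h3 : ((l - 1 : ℕ) : ℝ) = l - 1 := by
          rw [Nat.cast_sub hl0]; simp
        rw [h3, ← mul_assoc, ← C_mul, ← add_mul, ← C_add]
        congr 2; ring
    have h3 : lap (X i * q) = C 2 * pderiv i q := by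
      rw [lap_X_mul, hql, mul_zero, add_zero]
    have h4 := hLi i
    have h5 : C μ * lap (t i) = 0 := by
      have h6 := congrArg (C : ℝ → Pol n) hr2
      rw [h1, h2, h3]
      rw [show -(1 / 2 : ℝ) = 0 - 1 / 2 by ring, C_sub, C_0] at h6
      simp only [C_add, C_mul] at h6 ⊢
      linear_combination h4 - pderiv i q * h6
    rcases mul_eq_zero.mp h5 with h | h
    · exfalso
      rw [C_eq_zero] at h
      linarith
    · exact h
  set s : Pol n := xd t with hs
  have hsh : s.IsHomogeneous (k + 1) := by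
    refine IsHomogeneous.sum _ _ _ fun i _ => ?_
    have := (isHomogeneous_X ℝ i).mul (hth i)
    rwa [add_comm] at this
  have hsl : lap s = 0 := by
    have h1 : lap s = ∑ i, lap (X i * t i) := by
      rw [hs]
      unfold xd lap
      simp only [map_sum]
      rw [Finset.sum_comm]
    rw [h1]
    simp only [lap_X_mul, hlt, mul_zero, add_zero, ← Finset.mul_sum]
    have : ∑ i, pderiv i (t i) = 0 := hdt
    rw [this, mul_zero]
  have hk1 : ((k : ℝ) + 1) ≠ 0 := by positivity
  set p : Pol n := C (1 / ((k : ℝ) + 1)) * s with hp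
  have hph : p.IsHomogeneous (k + 1) := hsh.C_mul _
  have hpl : lap p = 0 := by rw [hp, lap_C_mul, hsl, mul_zero]
  refine ⟨fun i => t i - pderiv i p, p, ?_, ?_, ?_, ?_, hph, hpl, hqh, hql, ?_⟩
  · intro i
    exact (hth i).sub hph.pderiv
  · intro i
    rw [lap_sub, hlt, lap_pd, hpl, map_zero, sub_zero]
  · have h1 : xd (fun i => t i - pderiv i p) = s - xd (fun i => pderiv i p) := by
      rw [hs]; unfold xd
      simp only [mul_sub, Finset.sum_sub_distrib]
    rw [h1, xd_grad p (k + 1) hph, hp, ← mul_assoc, ← C_mul]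
    have : ((k + 1 : ℕ) : ℝ) * (1 / ((k : ℝ) + 1)) = 1 := by
      push_cast; field_simp
    rw [this, C_1, one_mul, sub_self]
  · have h1 : dv (fun i => t i - pderiv i p) = dv t - lap p := by
      unfold dv lap
      simp only [map_sub, Finset.sum_sub_distrib]
    rw [h1, hdt, hpl, sub_zero]
  · ext1 i
    unfold HF
    simp only [ht, ← ha, ← hb]
    ring

lemma decomp' (hn : 3 ≤ n) {μ : ℝ} (hμ : 0 < μ) (v : Fld n) (k : ℕ)
    (hv : ∀ i, (v i).IsHomogeneous k) (hL : LL μ v = 0) :
    ∃ (T : Fld n) (p : Pol n), (∀ i, (T i).IsHomogeneous k) ∧ (∀ i, lap (T i) = 0) ∧ xd T = 0 ∧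
      dv T = 0 ∧ p.IsHomogeneous (k + 1) ∧ lap p = 0 ∧ (dv v).IsHomogeneous (k - 1) ∧
      lap (dv v) = 0 ∧ v = HF n μ ((k - 1 : ℕ) : ℝ) T p (dv v) ∧ (v = 0 → p = 0) := by
  by_cases h0 : v = 0
  · have hd : dv v = 0 := by rw [h0]; unfold dv; simp
    rw [hd]
    refine ⟨0, 0, fun i => isHomogeneous_zero _ _ _, fun i => lap_zero, by unfold xd; simp,
      by unfold dv; simp, isHomogeneous_zero _ _ _, lap_zero, isHomogeneous_zero _ _ _, lap_zero,
      ?_, fun _ => rfl⟩
    rw [h0]
    ext1 i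
    unfold HF
    simp
  · obtain ⟨T, p, h⟩ := decomp hn hμ v k hv hL
    exact ⟨T, p, h.1, h.2.1, h.2.2.1, h.2.2.2.1, h.2.2.2.2.1, h.2.2.2.2.2.1, h.2.2.2.2.2.2.1,
      h.2.2.2.2.2.2.2.1, h.2.2.2.2.2.2.2.2, fun h' => absurd h' h0⟩

lemma hc_pd (k : ℕ) (p : Pol n) (i : Fin n) :
    homogeneousComponent k (pderiv i p) = pderiv i (homogeneousComponent (k + 1) p) := by
  ext m
  rw [coeff_homogeneousComponent, coeff_pderiv, coeff_pderiv, coeff_homogeneousComponent]
  have h1 : (m + Finsupp.single i 1).degree = m.degree + 1 := by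
    rw [map_add, Finsupp.degree_single]
  rw [h1]
  by_cases h : m.degree = k
  · simp [h]
  · simp [h]

/-- homogeneous components of a field -/
noncomputable def vk (v : Fld n) (k : ℕ) : Fld n := fun i => homogeneousComponent k (v i)

lemma pd_deg_zero (g : Pol n) (h : g.IsHomogeneous 0) (i : Fin n) : pderiv i g = 0 := by
  rw [← totalDegree_zero_iff_isHomogeneous, totalDegree_eq_zero_iff_eq_C] at h
  rw [h, pderiv_C]

lemma pd_deg_one (g : Pol n) (k : ℕ) (hk : k ≤ 1) (h : g.IsHomogeneous k) (i j : Fin n) :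
    pderiv i (pderiv j g) = 0 := by
  have h1 : (pderiv j g).IsHomogeneous 0 := by
    have := h.pderiv (i := j)
    rwa [Nat.sub_eq_zero_of_le hk] at this
  exact pd_deg_zero _ h1 i

lemma LL_vk {μ : ℝ} (v : Fld n) (hL : LL μ v = 0) (k : ℕ) : LL μ (vk v k) = 0 := by
  ext1 i
  rcases Nat.lt_or_ge k 2 with hk | hk
  · unfold LL lap dv vk
    simp only [map_sum]
    have h1 : ∀ j m, pderiv j (pderiv m (homogeneousComponent k (v i))) = 0 := fun j m =>
      pd_deg_one _ k (by omega) (homogeneousComponent_isHomogeneous _ _) j m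
    have h2 : ∀ j m p, pderiv j (pderiv m (homogeneousComponent k (v p))) = 0 := fun j m p =>
      pd_deg_one _ k (by omega) (homogeneousComponent_isHomogeneous _ _) j m
    simp [h2]
  · obtain ⟨k, rfl⟩ : ∃ m, k = m + 2 := ⟨k - 2, by omega⟩
    have h1 := congrArg (homogeneousComponent k) (congrFun hL i)
    unfold LL lap dv at h1 ⊢
    unfold vk
    simp only [map_add, homogeneousComponent_C_mul, map_sum, hc_pd, Pi.zero_apply, map_zero] at h1 ⊢
    exact h1

end Q187.Korn
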