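import Pool.Agent.Q187.Korn.Polar

/-!
# Density of polynomials in `C¹` on the unit ball
-/

open MeasureTheory Set Metric MvPolynomial Filter Topology
open scoped ContDiff

namespace Q187.Korn

variable {n : ℕ}

/-- partial derivative -/
noncomputable def D (i : Fin n) (f : E n → ℝ) (x : E n) : ℝ :=
  fderiv ℝ f x (EuclideanSpace.single i 1)

lemma D_ev (i : Fin n) (p : Pol n) (x : E n) : D i (ev p) x = ev (pderiv i p) x := by
  unfold D
  rw [(hasFDerivAt_ev p x).fderiv]
  simp

lemma contDiff_ev (p : Pol n) : ContDiff ℝ ∞ (ev p) := by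
  induction p using MvPolynomial.induction_on with
  | C a =>
    have : ev (C a : Pol n) = fun _ => a := by ext y; simp
    rw [this]; exact contDiff_const
  | add p q hp hq =>
    have h0 : ev (p + q) = fun x => ev p x + ev q x := by ext y; simp
    rw [h0]; exact hp.add hq
  | mul_X p j hp =>
    have h0 : ev (p * X j) = fun x => ev p x * x j := by ext y; simp
    rw [h0]
    exact hp.mul (EuclideanSpace.proj j : E n →L[ℝ] ℝ).contDiff

lemma contDiff_D (i : Fin n) {f : E n → ℝ} (hf : ContDiff ℝ ∞ f) : ContDiff ℝ ∞ (D i f) := by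
  unfold D
  exact (hf.fderiv_right (m := ∞) (by simp)).clm_apply contDiff_const

lemma diff_of {f : E n → ℝ} (hf : ContDiff ℝ ∞ f) : Differentiable ℝ f :=
  hf.differentiable (by simp)

lemma D_add (i : Fin n) {f g : E n → ℝ} (hf : ContDiff ℝ ∞ f) (hg : ContDiff ℝ ∞ g) (x : E n) :
    D i (fun x => f x + g x) x = D i f x + D i g x := by
  unfold D
  have := fderiv_fun_add (diff_of hf x) (diff_of hg x)
  rw [this]; rfl

lemma D_sub (i : Fin n) {f g : E n → ℝ} (hf : ContDiff ℝ ∞ f) (hg : ContDiff ℝ ∞ g) (x : E n) :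
    D i (fun x => f x - g x) x = D i f x - D i g x := by
  unfold D
  have := fderiv_fun_sub (diff_of hf x) (diff_of hg x)
  rw [this]; rfl

/-- second derivatives commute -/
lemma D_comm (i j : Fin n) {f : E n → ℝ} (hf : ContDiff ℝ ∞ f) (x : E n) :
    D i (D j f) x = D j (D i f) x := by
  have h1 : ∀ i j : Fin n, D i (D j f) x = fderiv ℝ (fderiv ℝ f) x
      (EuclideanSpace.single i 1) (EuclideanSpace.single j 1) := by
    intro i j
    have hd : DifferentiableAt ℝ (fderiv ℝ f) x :=
      ((hf.fderiv_right (m := ∞) (by simp)).differentiable (by simp)) x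
    have h2 := hd.hasFDerivAt.clm_apply (hasFDerivAt_const (EuclideanSpace.single j (1 : ℝ)) x)
    unfold D
    rw [h2.fderiv]
    simp
  rw [h1, h1]
  have h3 : IsSymmSndFDerivAt ℝ f x := (hf.contDiffAt (x := x)).isSymmSndFDerivAt (by
    rw [minSmoothness_of_isRCLikeNormedField]
    exact WithTop.coe_le_coe.mpr le_top)
  exact h3 _ _

/-- set the `k`-th coordinate to zero -/
noncomputable def piK (k : Fin n) : E n →L[ℝ] E n :=
  ContinuousLinearMap.id ℝ (E n) -
    (EuclideanSpace.proj k : E n →L[ℝ] ℝ).smulRight (EuclideanSpace.single k (1 : ℝ))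

lemma piK_apply (k : Fin n) (x : E n) (i : Fin n) : piK k x i = if i = k then 0 else x i := by
  unfold piK
  by_cases h : i = k
  · subst h; simp
  · simp [h]

lemma piK_single_ne {k i : Fin n} (h : i ≠ k) :
    piK k (EuclideanSpace.single i 1) = EuclideanSpace.single i (1 : ℝ) := by
  ext j
  rw [piK_apply]
  by_cases hj : j = k
  · subst hj; simp [Ne.symm h]
  · simp [hj]

lemma piK_single_self (k : Fin n) : piK k (EuclideanSpace.single k 1) = 0 := by
  ext j
  rw [piK_apply]
  by_cases hj : j = k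
  · subst hj; simp
  · simp [hj]

lemma norm_le_of_coord {x y : E n} (h : ∀ i, |y i| ≤ |x i|) : ‖y‖ ≤ ‖x‖ := by
  rw [EuclideanSpace.norm_eq, EuclideanSpace.norm_eq]
  apply Real.sqrt_le_sqrt
  refine Finset.sum_le_sum fun i _ => ?_
  rw [Real.norm_eq_abs, Real.norm_eq_abs]
  exact pow_le_pow_left₀ (abs_nonneg _) (h i) 2

lemma piK_mem (k : Fin n) {x : E n} (hx : x ∈ closedBall (0 : E n) 1) :
    piK k x ∈ closedBall (0 : E n) 1 := by
  rw [mem_closedBall_zero_iff] at hx ⊢
  refine le_trans (norm_le_of_coord fun i => ?_) hx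
  rw [piK_apply]
  split_ifs <;> simp

lemma D_comp_ne {k i : Fin n} (h : i ≠ k) {f : E n → ℝ} (hf : ContDiff ℝ ∞ f) (x : E n) :
    D i (fun x => f (piK k x)) x = D i f (piK k x) := by
  unfold D
  have h1 := (diff_of hf (piK k x)).hasFDerivAt.comp x (piK k).hasFDerivAt
  have h2 : (fun x => f (piK k x)) = f ∘ (piK k) := rfl
  rw [h2, h1.fderiv, ContinuousLinearMap.comp_apply, piK_single_ne h]

lemma D_comp_self (k : Fin n) {f : E n → ℝ} (hf : ContDiff ℝ ∞ f) (x : E n) :
    D k (fun x => f (piK k x)) x = 0 := by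
  unfold D
  have h1 := (diff_of hf (piK k x)).hasFDerivAt.comp x (piK k).hasFDerivAt
  have h2 : (fun x => f (piK k x)) = f ∘ (piK k) := rfl
  rw [h2, h1.fderiv, ContinuousLinearMap.comp_apply, piK_single_self, map_zero]

/-- mean value along a coordinate direction -/
lemma mv (k : Fin n) {H : E n → ℝ} (hH : ContDiff ℝ ∞ H) (h0 : ∀ x, H (piK k x) = 0) {ε : ℝ}
    (hε : ∀ x ∈ closedBall (0 : E n) 1, |D k H x| ≤ ε) {x : E n}
    (hx : x ∈ closedBall (0 : E n) 1) : |H x| ≤ ε := by
  set e : E n := EuclideanSpace.single k 1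
  have hxe : piK k x + x k • e = x := by
    ext j
    simp only [PiLp.add_apply, PiLp.smul_apply, piK_apply, e]
    by_cases hj : j = k
    · subst hj; simp
    · simp [hj]
  have hder : ∀ s : ℝ, HasDerivAt (fun s : ℝ => H (piK k x + s • e)) (D k H (piK k x + s • e)) s := by
    intro s
    have h1 : HasDerivAt (fun s : ℝ => piK k x + s • e) e s := by
      have := ((hasDerivAt_id s).smul_const e).const_add (piK k x)
      simpa using this
    exact (diff_of hH _).hasFDerivAt.comp_hasDerivAt s h1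
  have hxk : |x k| ≤ 1 := by
    rw [mem_closedBall_zero_iff] at hx
    have := EuclideanSpace.norm_eq x
    calc |x k| = ‖x k‖ := (Real.norm_eq_abs _).symm
      _ ≤ ‖x‖ := PiLp.norm_apply_le x k
      _ ≤ 1 := hx
  have hin : ∀ s ∈ uIcc 0 (x k), piK k x + s • e ∈ closedBall (0 : E n) 1 := by
    intro s hs
    have hs1 : |s| ≤ |x k| := by
      rcases le_total 0 (x k) with h | h
      · rw [uIcc_of_le h] at hs
        rw [abs_of_nonneg hs.1, abs_of_nonneg h]; exact hs.2
      · rw [uIcc_of_ge h] at hs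
        rw [abs_of_nonpos hs.2, abs_of_nonpos h]; linarith [hs.1]
    rw [mem_closedBall_zero_iff] at hx ⊢
    refine le_trans (norm_le_of_coord fun i => ?_) hx
    simp only [PiLp.add_apply, PiLp.smul_apply, piK_apply, e]
    by_cases hj : i = k
    · subst hj; simpa using hs1
    · simp [hj]
  have hε0 : 0 ≤ ε := (abs_nonneg _).trans (hε x hx)
  have key := Convex.norm_image_sub_le_of_norm_hasDerivWithin_le
    (f := fun s : ℝ => H (piK k x + s • e)) (f' := fun s => D k H (piK k x + s • e))
    (C := ε) (s := uIcc 0 (x k)) (x := 0) (y := x k)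
    (fun s _ => (hder s).hasDerivWithinAt)
    (fun s hs => by rw [Real.norm_eq_abs]; exact hε _ (hin s hs)) (convex_uIcc _ _)
    left_mem_uIcc right_mem_uIcc
  simp only [hxe, zero_smul, add_zero, h0, sub_zero, Real.norm_eq_abs] at key
  nlinarith [abs_nonneg (x k)]

/-- antiderivatives -/
lemma exists_anti (k : Fin n) (Q : Pol n) :
    ∃ P : Pol n, pderiv k P = Q ∧ ∀ x : E n, ev P (piK k x) = 0 := by
  induction Q using MvPolynomial.induction_on' with
  | monomial u a =>
    refine ⟨monomial (u + Finsupp.single k 1) (a / (u k + 1)), ?_, ?_⟩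
    · rw [pderiv_monomial]
      have h1 : u + Finsupp.single k 1 - Finsupp.single k 1 = u := by simp
      rw [h1]
      congr 1
      have : ((u k : ℝ) + 1) ≠ 0 := by positivity
      simp only [Finsupp.coe_add, Pi.add_apply, Finsupp.single_eq_same]
      push_cast
      field_simp
    · intro x
      unfold ev
      rw [eval_monomial]
      have h1 : ((u + Finsupp.single k 1).prod fun i e => (piK k x i) ^ e) = 0 := by
        rw [Finsupp.prod]
        refine Finset.prod_eq_zero (i := k) ?_ ?_
        · rw [Finsupp.mem_support_iff]; simp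
        · rw [piK_apply]; simp
      rw [h1, mul_zero]
  | add p q hp hq =>
    obtain ⟨P, hP, hP0⟩ := hp
    obtain ⟨P', hP', hP0'⟩ := hq
    refine ⟨P + P', by rw [map_add, hP, hP'], fun x => ?_⟩
    rw [ev_add, hP0, hP0', add_zero]

/-- composition with the projection is polynomial -/
lemma exists_comp_piK (k : Fin n) (P : Pol n) : ∃ R : Pol n, ∀ x : E n, ev R x = ev P (piK k x) := by
  refine ⟨bind₁ (fun j => if j = k then 0 else X j) P, fun x => ?_⟩
  unfold ev
  have h1 : (eval fun i => x i) (bind₁ (fun j => if j = k then 0 else X j) P)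
      = eval (fun i => piK k x i) P := by
    rw [← aeval_eq_bind₁]
    have h2 : ((eval fun i => x i : Pol n →+* ℝ)) ((aeval fun j => if j = k then 0 else X j) P)
        = eval₂ (RingHom.id ℝ) (fun j => (eval fun i => x i) (if j = k then 0 else X j : Pol n)) P := by
      rw [aeval_def, ← coe_eval₂Hom, ← RingHom.comp_apply, comp_eval₂Hom, coe_eval₂Hom]
      congr 1
      ext a; simp
    rw [h2]
    have h3 : (fun j => (eval fun i => x i) (if j = k then 0 else X j : Pol n))
        = fun i => piK k x i := by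
      ext j
      rw [piK_apply]
      split_ifs <;> simp
    rw [h3]
    rfl
  exact h1

/-- Stone-Weierstrass -/
lemma weier {f : E n → ℝ} (hf : Continuous f) {ε : ℝ} (hε : 0 < ε) :
    ∃ P : Pol n, ∀ x ∈ closedBall (0 : E n) 1, |f x - ev P x| ≤ ε := by
  let φ : Pol n →ₐ[ℝ] C(E n, ℝ) :=
    aeval (fun i => (⟨fun x => x i, by fun_prop⟩ : C(E n, ℝ)))
  have hφ : ∀ (P : Pol n) (x : E n), φ P x = ev P x := by
    intro P x
    induction P using MvPolynomial.induction_on with
    | C a => simp [φ]
    | add p q hp hq => rw [map_add, ContinuousMap.add_apply, hp, hq, ev_add]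
    | mul_X p j hp =>
      rw [map_mul, ContinuousMap.mul_apply, hp, ev_mul]
      simp [φ]
  have hsep : φ.range.SeparatesPoints := by
    intro x y hxy
    obtain ⟨i, hi⟩ : ∃ i, x i ≠ y i := by
      by_contra hcon
      push Not at hcon
      exact hxy (by ext i; exact hcon i)
    refine ⟨φ (X i), ⟨φ (X i), ⟨X i, rfl⟩, rfl⟩, ?_⟩
    rw [hφ, hφ]
    simpa using hi
  obtain ⟨g, ⟨P, rfl⟩, hg⟩ :=
    ContinuousMap.exists_mem_subalgebra_near_continuous_of_isCompact_of_separatesPoints hsep
      ⟨f, hf⟩ (isCompact_closedBall (0 : E n) 1) hε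
  refine ⟨P, fun x hx => ?_⟩
  have h1 := hg x hx
  have h2 : (φ P) x = ev P x := hφ P x
  simp only [AlgHom.toRingHom_eq_coe, RingHom.coe_coe, ContinuousMap.coe_mk] at h1
  rw [h2, Real.norm_eq_abs, abs_sub_comm] at h1
  exact h1.le

/-- density -/
theorem dense_aux (S : Finset (Fin n)) : ∀ (f : E n → ℝ), ContDiff ℝ ∞ f → ∀ ε : ℝ, 0 < ε →
    ∃ P : Pol n, ∀ x ∈ closedBall (0 : E n) 1, |f x - ev P x| ≤ ε ∧
      ∀ i ∈ S, |D i (fun x => f x - ev P x) x| ≤ ε := by
  classical
  induction S using Finset.induction_on with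
  | empty =>
    intro f hf ε hε
    obtain ⟨P, hP⟩ := weier hf.continuous hε
    exact ⟨P, fun x hx => ⟨hP x hx, by simp⟩⟩
  | insert k S hk ih =>
    intro f hf ε hε
    obtain ⟨Q, hQ⟩ := ih (D k f) (contDiff_D k hf) (ε / 2) (by positivity)
    obtain ⟨P0, hP0⟩ := ih f hf (ε / 2) (by positivity)
    obtain ⟨P1, hP1, hP10⟩ := exists_anti k Q
    obtain ⟨R, hR⟩ := exists_comp_piK k P0
    have hπ : ContDiff ℝ ∞ (piK k : E n → E n) := (piK k).contDiff
    have hF0 : ContDiff ℝ ∞ (fun x => f x - ev P1 x) := hf.sub (contDiff_ev P1)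
    have hF0π : ContDiff ℝ ∞ (fun x => f (piK k x) - ev P1 (piK k x)) := hF0.comp hπ
    have hH : ContDiff ℝ ∞ (fun x => (f x - ev P1 x) - (f (piK k x) - ev P1 (piK k x))) :=
      hF0.sub hF0π
    have hG0 : ContDiff ℝ ∞ (fun x => f x - ev P0 x) := hf.sub (contDiff_ev P0)
    have hG : ContDiff ℝ ∞ (fun x => f (piK k x) - ev P0 (piK k x)) := hG0.comp hπ
    set H : E n → ℝ := fun x => (f x - ev P1 x) - (f (piK k x) - ev P1 (piK k x)) with hHd
    set G : E n → ℝ := fun x => f (piK k x) - ev P0 (piK k x) with hGd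
    have hππ : ∀ x : E n, piK k (piK k x) = piK k x := by
      intro x; ext j; simp only [piK_apply]; split_ifs <;> rfl
    have hsplit : (fun x => f x - ev (P1 + R) x) = fun x => H x + G x := by
      ext x
      simp only [hHd, hGd, ev_add, hR, hP10]
      ring
    have hH0 : ∀ x, H (piK k x) = 0 := by
      intro x
      simp only [hHd, hππ, sub_self]
    -- derivative in direction k
    have hDkH : D k H = fun x => D k f x - ev Q x := by
      ext x
      rw [hHd, D_sub k hF0 hF0π, D_sub k hf (contDiff_ev P1), D_ev, hP1]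
      have := D_comp_self k hF0 x
      rw [this, sub_zero]
    have hDkHb : ∀ x ∈ closedBall (0 : E n) 1, |D k H x| ≤ ε / 2 := by
      intro x hx
      rw [hDkH]
      exact (hQ x hx).1
    have hHb : ∀ x ∈ closedBall (0 : E n) 1, |H x| ≤ ε / 2 := fun x hx => mv k hH hH0 hDkHb hx
    have hDiH : ∀ i ∈ S, ∀ x ∈ closedBall (0 : E n) 1, |D i H x| ≤ ε / 2 := by
      intro i hi x hx
      have hik : i ≠ k := fun h => hk (h ▸ hi)
      refine mv k (contDiff_D i hH) (fun y => ?_) (fun y hy => ?_) hx
      · rw [← D_comp_ne hik hH y]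
        have h1 : (fun x => H (piK k x)) = fun _ => 0 := by ext x; exact hH0 x
        rw [h1]
        unfold D; simp
      · rw [D_comm k i hH y, hDkH]
        exact (hQ y hy).2 i hi
    refine ⟨P1 + R, fun x hx => ?_⟩
    rw [hsplit]
    constructor
    · have h1 : f x - ev (P1 + R) x = H x + G x := congrFun hsplit x
      rw [h1]
      have h2 := hHb x hx
      have h3 := (hP0 _ (piK_mem k hx)).1
      calc |H x + G x| ≤ |H x| + |G x| := abs_add_le _ _
        _ ≤ ε / 2 + ε / 2 := add_le_add h2 h3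
        _ = ε := by ring
    · intro i hi
      rw [D_add i hH hG]
      rcases Finset.mem_insert.mp hi with rfl | hiS
      · have h1 := D_comp_self i hG0 x
        have h2 : D i G x = 0 := h1
        rw [h2, add_zero]
        exact (hDkHb x hx).trans (by linarith)
      · have hik : i ≠ k := fun h => hk (h ▸ hiS)
        have h1 : D i G x = D i (fun x => f x - ev P0 x) (piK k x) := D_comp_ne hik hG0 x
        rw [h1]
        have h2 := hDiH i hiS x hx
        have h3 := (hP0 _ (piK_mem k hx)).2 i hiS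
        calc |D i H x + D i (fun x => f x - ev P0 x) (piK k x)|
            ≤ |D i H x| + |D i (fun x => f x - ev P0 x) (piK k x)| := abs_add_le _ _
          _ ≤ ε / 2 + ε / 2 := add_le_add h2 h3
          _ = ε := by ring

/-- density of polynomials in `C¹` -/
theorem dense_poly (f : E n → ℝ) (hf : ContDiff ℝ ∞ f) {ε : ℝ} (hε : 0 < ε) :
    ∃ P : Pol n, ∀ x ∈ closedBall (0 : E n) 1, ∀ i, |D i f x - ev (pderiv i P) x| ≤ ε := by
  obtain ⟨P, hP⟩ := dense_aux Finset.univ f hf ε hε
  refine ⟨P, fun x hx i => ?_⟩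
  have := (hP x hx).2 i (Finset.mem_univ i)
  rwa [D_sub i hf (contDiff_ev P), D_ev] at this

end Q187.Korn
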