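import Pool.Agent.Q187.Korn.Decomp

/-!
# Nonnegativity of the quadratic form
-/

open MeasureTheory Set Metric MvPolynomial Filter Topology

namespace Q187.Korn

variable {n : ℕ}

/-- coefficient in the field `v` -/
noncomputable def Afld (n : ℕ) (μ : ℝ) (l : ℕ) (T : Fld n) (P Q : Pol n) : Fld n :=
  FF T (P + C (al n μ l) * Q) (C (bl n μ l) * Q)

/-- coefficient in the field `B v` -/
noncomputable def Bfld (n : ℕ) (μ : ℝ) (l : ℕ) (T : Fld n) (P Q : Pol n) : Fld n :=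
  FF (fun i => C (μ * l - 1 / 2) * T i) (C (c1 μ l) * P + C (c2 n μ l) * Q) (C (c3 n μ l) * Q)

/-- basic triple -/
structure Bas (l : ℕ) (T : Fld n) (P Q : Pol n) : Prop where
  Th : ∀ i, (T i).IsHomogeneous l
  Tl : ∀ i, lap (T i) = 0
  Tx : xd T = 0
  Td : dv T = 0
  Ph : P.IsHomogeneous l
  Pl : lap P = 0
  Qh : Q.IsHomogeneous l
  Ql : lap Q = 0

lemma Bas.typA {l : ℕ} {T : Fld n} {P Q : Pol n} (h : Bas l T P Q) (μ : ℝ) :
    Typ l T (P + C (al n μ l) * Q) (C (bl n μ l) * Q) where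
  Th := h.Th
  Tl := h.Tl
  Tx := h.Tx
  Td := h.Td
  fh := h.Ph.add (h.Qh.C_mul _)
  fl := by rw [lap_add, lap_C_mul, h.Pl, h.Ql]; simp
  gh := h.Qh.C_mul _
  gl := by rw [lap_C_mul, h.Ql, mul_zero]

lemma Bas.typB {l : ℕ} {T : Fld n} {P Q : Pol n} (h : Bas l T P Q) (μ : ℝ) :
    Typ l (fun i => C (μ * l - 1 / 2) * T i) (C (c1 μ l) * P + C (c2 n μ l) * Q)
      (C (c3 n μ l) * Q) where
  Th := fun i => (h.Th i).C_mul _
  Tl := fun i => by rw [lap_C_mul, h.Tl, mul_zero]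
  Tx := by
    have : xd (fun i => C (μ * l - 1 / 2) * T i) = C (μ * l - 1 / 2) * xd T := by
      unfold xd
      rw [Finset.mul_sum]; exact Finset.sum_congr rfl fun i _ => by ring
    rw [this, h.Tx, mul_zero]
  Td := by
    have : dv (fun i => C (μ * l - 1 / 2) * T i) = C (μ * l - 1 / 2) * dv T := by
      unfold dv
      rw [Finset.mul_sum]; exact Finset.sum_congr rfl fun i _ => pderiv_C_mul
    rw [this, h.Td, mul_zero]
  fh := (h.Ph.C_mul _).add (h.Qh.C_mul _)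
  fl := by rw [lap_add, lap_C_mul, lap_C_mul, h.Pl, h.Ql]; simp
  gh := h.Qh.C_mul _
  gl := by rw [lap_C_mul, h.Ql, mul_zero]

lemma LS_comb (a b c d : ℝ) (P Q : Pol n) :
    LS ((C a * P + C b * Q) * (C c * P + C d * Q))
      = a * c * LS (P * P) + (a * d + b * c) * LS (P * Q) + b * d * LS (Q * Q) := by
  have : (C a * P + C b * Q) * (C c * P + C d * Q)
      = C (a * c) * (P * P) + C (a * d + b * c) * (P * Q) + C (b * d) * (Q * Q) := by
    simp only [C_add, C_mul]; ring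
  rw [this, map_add, map_add, LS_C_mul, LS_C_mul, LS_C_mul]

lemma diag_eq [NeZero n] {l : ℕ} {T : Fld n} {P Q : Pol n} (h : Bas l T P Q) (μ : ℝ) :
    LS (dt (Afld n μ l T P Q) (Bfld n μ l T P Q)) = (μ * l - 1 / 2) * LS (dt T T)
      + (l * (n + 2 * l - 2)) * c1 μ l * LS (P * P)
      + ((c2 n μ l * (l * (n + 2 * l - 2)) + c3 n μ l * l)
        + c1 μ l * (al n μ l * (l * (n + 2 * l - 2)) + bl n μ l * l)) * LS (P * Q)
      + (al n μ l * (c2 n μ l * (l * (n + 2 * l - 2)) + c3 n μ l * l)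
        + bl n μ l * (l * c2 n μ l + c3 n μ l)) * LS (Q * Q) := by
  unfold Afld Bfld
  rw [FF_pair (h.typA μ) (h.typB μ)]
  have e0 : LS (dt T (fun i => C (μ * l - 1 / 2) * T i)) = (μ * l - 1 / 2) * LS (dt T T) := by
    have : dt T (fun i => C (μ * l - 1 / 2) * T i) = C (μ * l - 1 / 2) * dt T T := by
      unfold dt
      rw [Finset.mul_sum]; exact Finset.sum_congr rfl fun i _ => by ring
    rw [this, LS_C_mul]
  have e1 := LS_comb 1 (al n μ l) (c1 μ l) (c2 n μ l) P Q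
  have e2 := LS_comb 1 (al n μ l) 0 (c3 n μ l) P Q
  have e3 := LS_comb 0 (bl n μ l) (c1 μ l) (c2 n μ l) P Q
  have e4 := LS_comb 0 (bl n μ l) 0 (c3 n μ l) P Q
  simp only [C_1, C_0, one_mul, zero_mul, zero_add, add_zero, mul_zero] at e1 e2 e3 e4
  rw [e0, e1, e2, e3, e4]
  ring

lemma diag_nonneg [NeZero n] (hn : 3 ≤ n) {l : ℕ} {T : Fld n} {P Q : Pol n} (h : Bas l T P Q)
    {μ : ℝ} (hμ : 0 < μ) (hc3 : 0 ≤ c3 n μ l) (hT : 0 ≤ (μ * l - 1 / 2) * LS (dt T T)) :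
    0 ≤ LS (dt (Afld n μ l T P Q) (Bfld n μ l T P Q)) := by
  rw [diag_eq h μ]
  have hn3 : (3 : ℝ) ≤ n := by exact_mod_cast hn
  have hlc : (0 : ℝ) ≤ (l : ℝ) := Nat.cast_nonneg l
  have hD := Dl_pos hn hlc
  have hb : 0 ≤ bl n μ l := by
    unfold bl
    refine div_nonneg ?_ hD.le
    have : (0 : ℝ) ≤ l / μ := by positivity
    linarith
  have hz : 0 ≤ LS (Q * Q) := LS_sq_nonneg Q
  have r3 := rel3 hn hμ hlc
  rcases Nat.eq_zero_or_pos l with hl | hl
  · subst hl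
    simp only [Nat.cast_zero, zero_mul, mul_zero, add_zero, zero_add] at hT hb hc3 ⊢
    have := mul_nonneg (mul_nonneg hb hc3) hz
    linarith
  · have hl1 : (1 : ℝ) ≤ l := by exact_mod_cast hl
    have hΛ : 0 < (l : ℝ) * (n + 2 * l - 2) := by
      have : (0 : ℝ) < n + 2 * l - 2 := by linarith
      positivity
    set Λ := (l : ℝ) * (n + 2 * l - 2) with hΛd
    set a := al n μ l
    set b := bl n μ l
    set s := (a * Λ + b * l) / Λ with hs
    have hsΛ : s * Λ = a * Λ + b * l := by rw [hs]; field_simp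
    have hsq := LS_sq_nonneg (P + C s * Q)
    have e1 := LS_comb 1 s 1 s P Q
    simp only [C_1, one_mul, mul_one] at e1
    rw [e1] at hsq
    have hc1 : 0 ≤ c1 μ l := by
      unfold c1
      have : (0 : ℝ) ≤ l - 1 := by linarith
      positivity
    have hΛl : 0 ≤ Λ - l ^ 2 := by
      rw [hΛd]; nlinarith
    have h1 := mul_nonneg (mul_nonneg hc1 hΛ.le) hsq
    have h2 : 0 ≤ b * c3 n μ l * ((Λ - l ^ 2) / Λ) * LS (Q * Q) := by positivity
    have key : (a * (c2 n μ l * Λ + c3 n μ l * l) + b * (l * c2 n μ l + c3 n μ l))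
        = c1 μ l * Λ * (s * s) + b * c3 n μ l * ((Λ - l ^ 2) / Λ) := by
      have h3 : (a * (c2 n μ l * Λ + c3 n μ l * l) + b * (l * c2 n μ l + c3 n μ l)) * Λ
        = (c1 μ l * Λ * (s * s) + b * c3 n μ l * ((Λ - l ^ 2) / Λ)) * Λ := by
        have h4 : b * c3 n μ l * ((Λ - l ^ 2) / Λ) * Λ = b * c3 n μ l * (Λ - l ^ 2) := by
          field_simp
        have h5 : c1 μ l * Λ * (s * s) * Λ = c1 μ l * (a * Λ + b * l) ^ 2 := by
          rw [← hsΛ]; ring
        rw [add_mul, add_mul, h4, h5]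
        linear_combination (a * Λ + b * l) * r3
      exact mul_right_cancel₀ hΛ.ne' h3
    rw [key, r3, ← hsΛ]
    nlinarith [h1, h2, hT]

end Q187.Korn
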