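import Pool.Agent.Q187.Korn.Green

/-!
# Vector fields: Green's formula, reduction to solutions of the Navier system
-/

open MeasureTheory Set Metric MvPolynomial Filter Topology

namespace Q187.Korn

variable {n : ℕ}

/-- polynomial fields -/
abbrev Fld (n : ℕ) := Fin n → Pol n

lemma pd_comm (i j : Fin n) (g : Pol n) : pderiv i (pderiv j g) = pderiv j (pderiv i g) := by
  have h : (⁅(pderiv i : Derivation ℝ (Pol n) (Pol n)), pderiv j⁆
      : Derivation ℝ (Pol n) (Pol n)) = 0 := by
    apply derivation_ext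
    intro k
    rw [Derivation.commutator_apply, Derivation.zero_apply]
    rw [pderiv_X, pderiv_X]
    simp only [Pi.single_apply]
    split_ifs <;> simp
  have h2 := congrArg (fun D : Derivation ℝ (Pol n) (Pol n) => D g) h
  simp only [Derivation.commutator_apply, Derivation.zero_apply] at h2
  exact sub_eq_zero.mp h2

lemma LS_C_mul (a : ℝ) (p : Pol n) : LS (C a * p) = a * LS p := by
  rw [← smul_eq_C_mul, map_smul, smul_eq_mul]

lemma LB_C_mul (a : ℝ) (p : Pol n) : LB (C a * p) = a * LB p := by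
  rw [← smul_eq_C_mul, map_smul, smul_eq_mul]

/-- Laplacian -/
noncomputable def lap (g : Pol n) : Pol n := ∑ j, pderiv j (pderiv j g)

/-- divergence -/
noncomputable def dv (w : Fld n) : Pol n := ∑ i, pderiv i (w i)

/-- dot product -/
noncomputable def dt (u w : Fld n) : Pol n := ∑ i, u i * w i

/-- dot product with the position -/
noncomputable def xd (w : Fld n) : Pol n := ∑ i, X i * w i

/-- the Navier operator -/
noncomputable def LL (μ : ℝ) (w : Fld n) : Fld n :=
  fun i => C μ * lap (w i) + C (1 / 2) * pderiv i (dv w)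

/-- the boundary operator -/
noncomputable def BB (μ : ℝ) (w : Fld n) : Fld n :=
  fun i => C μ * ∑ j, X j * pderiv j (w i) + C (1 / 2) * ∑ j, X j * pderiv i (w j)

/-- `∫ ∇u : ∇w` -/
noncomputable def aa (u w : Fld n) : ℝ := ∑ i, ∑ j, LB (pderiv j (u i) * pderiv j (w i))

/-- `∫ ∇u : (∇w)ᵀ` -/
noncomputable def tt (u w : Fld n) : ℝ := ∑ i, ∑ j, LB (pderiv j (u i) * pderiv i (w j))

/-- the quadratic form -/
noncomputable def Ph (μ : ℝ) (u w : Fld n) : ℝ := μ * aa u w + 1 / 2 * tt u w

lemma parts2 [NeZero n] (f g : Pol n) (j : Fin n) :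
    LB (pderiv j f * g) = LS (X j * (f * g)) - LB (f * pderiv j g) := by
  have h := LB_pderiv (f * g) j
  rw [pderiv_mul, map_add] at h
  linarith

lemma green [NeZero n] (μ : ℝ) (u w : Fld n) :
    Ph μ u w = LS (dt u (BB μ w)) - LB (dt u (LL μ w)) := by
  have h1 : LS (dt u (BB μ w))
      = μ * (∑ i, ∑ j, LS (X j * (u i * pderiv j (w i))))
        + 1 / 2 * (∑ i, ∑ j, LS (X j * (u i * pderiv i (w j)))) := by
    rw [Finset.mul_sum, Finset.mul_sum, ← Finset.sum_add_distrib]
    unfold dt BB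
    rw [map_sum]
    refine Finset.sum_congr rfl fun i _ => ?_
    have e : u i * (C μ * ∑ j, X j * pderiv j (w i) + C (1 / 2) * ∑ j, X j * pderiv i (w j))
        = C μ * (∑ j, X j * (u i * pderiv j (w i))) + C (1 / 2) * (∑ j, X j * (u i * pderiv i (w j))) := by
      simp only [Finset.mul_sum, mul_add]
      congr 1 <;> refine Finset.sum_congr rfl fun j _ => ?_ <;> ring
    rw [e, map_add, LS_C_mul, LS_C_mul, map_sum, map_sum]
  have h2 : LB (dt u (LL μ w))
      = μ * (∑ i, ∑ j, LB (u i * pderiv j (pderiv j (w i))))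
        + 1 / 2 * (∑ i, ∑ j, LB (u i * pderiv i (pderiv j (w j)))) := by
    rw [Finset.mul_sum, Finset.mul_sum, ← Finset.sum_add_distrib]
    unfold dt LL
    rw [map_sum]
    refine Finset.sum_congr rfl fun i _ => ?_
    have e : u i * (C μ * lap (w i) + C (1 / 2) * pderiv i (dv w))
        = C μ * (∑ j, u i * pderiv j (pderiv j (w i)))
          + C (1 / 2) * (∑ j, u i * pderiv i (pderiv j (w j))) := by
      unfold lap dv
      simp only [Finset.mul_sum, mul_add, map_sum]
      congr 1 <;> refine Finset.sum_congr rfl fun j _ => ?_ <;> ring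
    rw [e, map_add, LB_C_mul, LB_C_mul, map_sum, map_sum]
  have h3 : aa u w = (∑ i, ∑ j, LS (X j * (u i * pderiv j (w i))))
      - ∑ i, ∑ j, LB (u i * pderiv j (pderiv j (w i))) := by
    unfold aa
    simp only [← Finset.sum_sub_distrib, parts2]
  have h4 : tt u w = (∑ i, ∑ j, LS (X j * (u i * pderiv i (w j))))
      - ∑ i, ∑ j, LB (u i * pderiv i (pderiv j (w j))) := by
    unfold tt
    simp only [← Finset.sum_sub_distrib, parts2]
    refine Finset.sum_congr rfl fun i _ => Finset.sum_congr rfl fun j _ => ?_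
    rw [pd_comm j i]
  unfold Ph
  rw [h1, h2, h3, h4]
  ring

lemma aa_symm (u w : Fld n) : aa u w = aa w u := by
  unfold aa
  refine Finset.sum_congr rfl fun i _ => Finset.sum_congr rfl fun j _ => ?_
  rw [mul_comm]

lemma tt_symm (u w : Fld n) : tt u w = tt w u := by
  unfold tt
  rw [Finset.sum_comm]
  refine Finset.sum_congr rfl fun i _ => Finset.sum_congr rfl fun j _ => ?_
  rw [mul_comm]

lemma Ph_symm (μ : ℝ) (u w : Fld n) : Ph μ u w = Ph μ w u := by
  unfold Ph; rw [aa_symm, tt_symm]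

lemma aa_add (u w z : Fld n) : aa (u + w) z = aa u z + aa w z := by
  unfold aa
  simp only [← Finset.sum_add_distrib, Pi.add_apply, map_add, add_mul]

lemma tt_add (u w z : Fld n) : tt (u + w) z = tt u z + tt w z := by
  unfold tt
  simp only [← Finset.sum_add_distrib, Pi.add_apply, map_add, add_mul]

lemma Ph_add (μ : ℝ) (u w z : Fld n) : Ph μ (u + w) z = Ph μ u z + Ph μ w z := by
  unfold Ph; rw [aa_add, tt_add]; ring

lemma aa_nonneg (u : Fld n) : 0 ≤ aa u u :=
  Finset.sum_nonneg fun _ _ => Finset.sum_nonneg fun _ _ => LB_sq_nonneg _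

lemma aa_eq_zero (u : Fld n) (h : aa u u = 0) (i j : Fin n) : pderiv j (u i) = 0 := by
  unfold aa at h
  rw [Finset.sum_eq_zero_iff_of_nonneg
    fun _ _ => Finset.sum_nonneg fun _ _ => LB_sq_nonneg _] at h
  have h1 := h i (Finset.mem_univ i)
  rw [Finset.sum_eq_zero_iff_of_nonneg fun _ _ => LB_sq_nonneg _] at h1
  exact LB_sq_eq_zero _ (h1 j (Finset.mem_univ j))

/-- fields that vanish on the sphere -/
noncomputable def bz (w : Fld n) : Fld n := fun i => (1 - r2) * w i

lemma LS_bz (w : Fld n) (i : Fin n) (g : Pol n) : LS (bz w i * g) = 0 := by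
  unfold bz
  have : (1 - r2) * w i * g = w i * g - r2 * (w i * g) := by ring
  rw [this, map_sub, LS_r2_mul, sub_self]

lemma LS_bz' (w : Fld n) (i : Fin n) (g h : Pol n) : LS (h * (bz w i * g)) = 0 := by
  have : h * (bz w i * g) = bz w i * (h * g) := by ring
  rw [this, LS_bz]

lemma tt_bz [NeZero n] (w : Fld n) : tt (bz w) (bz w) = LB (dv (bz w) * dv (bz w)) := by
  have h1 : ∀ i j : Fin n, LB (pderiv j (bz w i) * pderiv i (bz w j))
      = LB (pderiv i (bz w i) * pderiv j (bz w j)) := by
    intro i j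
    rw [parts2, parts2, LS_bz', LS_bz', pd_comm]
  unfold tt
  simp only [h1]
  unfold dv
  rw [Finset.sum_mul_sum, map_sum]
  refine Finset.sum_congr rfl fun i _ => ?_
  rw [map_sum]

lemma pd_zero_const (p : Pol n) (h : ∀ i, pderiv i p = 0) : ∃ c : ℝ, p = C c := by
  refine ⟨coeff 0 p, ?_⟩
  rw [← totalDegree_eq_zero_iff_eq_C]
  by_contra hne
  have h1 : ∃ m ∈ p.support, m ≠ 0 := by
    by_contra hcon
    push Not at hcon
    apply hne
    rw [totalDegree_eq_zero_iff_eq_C]
    ext m
    rw [coeff_C]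
    split_ifs with hm
    · rw [← hm]
    · by_contra h2
      exact hm (hcon m (mem_support_iff.mpr h2)).symm
  obtain ⟨m, hm, hm0⟩ := h1
  obtain ⟨i, hi⟩ : ∃ i, m i ≠ 0 := by
    by_contra hcon
    push Not at hcon
    exact hm0 (Finsupp.ext hcon)
  have h2 := coeff_pderiv (i := i) p (m - Finsupp.single i 1)
  rw [h i, coeff_zero] at h2
  have h3 : m - Finsupp.single i 1 + Finsupp.single i 1 = m := by
    ext k
    simp only [Finsupp.coe_add, Finsupp.coe_tsub, Pi.add_apply, Pi.sub_apply]
    by_cases hk : i = k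
    · subst hk; simp; omega
    · simp [hk]
  rw [h3] at h2
  have h4 : (((m - Finsupp.single i 1 : Fin n →₀ ℕ) i : ℕ) : ℝ) + 1 ≠ 0 := by positivity
  exact (mul_ne_zero (mem_support_iff.mp hm) h4) h2.symm

lemma bz_eq_zero [NeZero n] (w : Fld n) (h : ∀ i j, pderiv j (bz w i) = 0) : w = 0 := by
  ext1 i
  obtain ⟨c, hc⟩ := pd_zero_const (bz w i) (h i)
  have h1 := LS_bz w i (C c)
  rw [hc, LS_C_mul, ← mul_one (C c : Pol n), LS_C_mul] at h1
  have h2 : c = 0 := by
    have := LS_one_pos (n := n)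
    rcases mul_eq_zero.mp h1 with h | h
    · exact h
    · rcases mul_eq_zero.mp h with h | h
      · exact h
      · exact absurd h this.ne'
  rw [h2, C_0] at hc
  unfold bz at hc
  rcases mul_eq_zero.mp hc with h | h
  · exfalso
    have h3 := congrArg (fun p => ev p (0 : E n)) h
    simp [ev_r2] at h3
  · exact h

lemma inj [NeZero n] {μ : ℝ} (hμ : 0 < μ) (w : Fld n) (h : LL μ (bz w) = 0) : w = 0 := by
  have h1 := green μ (bz w) (bz w)
  rw [h] at h1
  have h2 : LS (dt (bz w) (BB μ (bz w))) = 0 := by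
    unfold dt
    rw [map_sum]
    exact Finset.sum_eq_zero fun i _ => LS_bz _ _ _
  have h3 : LB (dt (bz w) (0 : Fld n)) = 0 := by
    unfold dt; simp
  rw [h2, h3] at h1
  unfold Ph at h1
  rw [tt_bz] at h1
  have h4 := aa_nonneg (bz w)
  have h5 := LB_sq_nonneg (dv (bz w))
  have h6 : aa (bz w) (bz w) = 0 := by nlinarith
  exact bz_eq_zero w fun i j => aa_eq_zero _ h6 i j

lemma totalDegree_pd (p : Pol n) (N : ℕ) (h : p.totalDegree ≤ N + 1) (i : Fin n) :
    (pderiv i p).totalDegree ≤ N := by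
  unfold totalDegree
  refine Finset.sup_le fun m hm => ?_
  have h1 := mem_support_iff.mp hm
  rw [coeff_pderiv] at h1
  have h2 : m + Finsupp.single i 1 ∈ p.support := mem_support_iff.mpr (left_ne_zero_of_mul h1)
  have h3 := le_totalDegree h2
  have h4 : ((m + Finsupp.single i 1).sum fun _ e => e) = (m.sum fun _ e => e) + 1 := by
    rw [Finsupp.sum_add_index' (fun _ => rfl) (fun _ _ _ => rfl), Finsupp.sum_single_index rfl]
  omega

lemma LL_add (μ : ℝ) (u w : Fld n) : LL μ (u + w) = LL μ u + LL μ w := by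
  ext1 i
  unfold LL lap dv
  simp only [Pi.add_apply, map_add, Finset.sum_add_distrib]
  ring

lemma LL_smul (μ a : ℝ) (w : Fld n) : LL μ (a • w) = a • LL μ w := by
  ext1 i
  unfold LL lap dv
  simp only [Pi.smul_apply, Derivation.map_smul, ← Finset.smul_sum]
  rw [smul_add, mul_smul_comm, mul_smul_comm]

lemma bz_add (u w : Fld n) : bz (u + w) = bz u + bz w := by
  ext1 i; unfold bz; simp only [Pi.add_apply]; ring

lemma bz_smul (a : ℝ) (w : Fld n) : bz (a • w) = a • bz w := by
  ext1 i; unfold bz; simp only [Pi.smul_apply, mul_smul_comm]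

lemma deg_LLbz (μ : ℝ) (w : Fld n) (N : ℕ) (hw : ∀ i, (w i).totalDegree ≤ N) (i : Fin n) :
    (LL μ (bz w) i).totalDegree ≤ N := by
  have h1 : ∀ i, (bz w i).totalDegree ≤ N + 2 := by
    intro i
    unfold bz
    refine (totalDegree_mul _ _).trans ?_
    have h2 : ((1 : Pol n) - r2).totalDegree ≤ 2 := by
      refine (totalDegree_sub _ _).trans ?_
      rw [totalDegree_one]
      exact max_le (by omega) r2_hom.totalDegree_le
    have := hw i
    omega
  unfold LL lap dv
  refine (totalDegree_add _ _).trans (max_le ?_ ?_)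
  · refine (totalDegree_mul _ _).trans ?_
    rw [totalDegree_C, zero_add]
    refine totalDegree_finsetSum_le fun j _ => ?_
    exact totalDegree_pd _ _ (totalDegree_pd _ _ (h1 i) j) j
  · refine (totalDegree_mul _ _).trans ?_
    rw [totalDegree_C, zero_add]
    refine totalDegree_pd _ _ ?_ i
    refine totalDegree_finsetSum_le fun j _ => ?_
    exact totalDegree_pd _ _ (h1 j) j

lemma surj [NeZero n] {μ : ℝ} (hμ : 0 < μ) (f : Fld n) : ∃ w : Fld n, LL μ (bz w) = f := by
  obtain ⟨N, hN⟩ : ∃ N, ∀ i, (f i).totalDegree ≤ N :=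
    ⟨∑ i, (f i).totalDegree, fun i => Finset.single_le_sum
      (f := fun i => (f i).totalDegree) (fun _ _ => Nat.zero_le _) (Finset.mem_univ i)⟩
  set V := restrictTotalDegree (Fin n) ℝ N
  let φ : (Fin n → V) →ₗ[ℝ] (Fin n → V) :=
    { toFun := fun w i => ⟨LL μ (bz fun j => (w j : Pol n)) i,
        (mem_restrictTotalDegree _ _ _).mpr (deg_LLbz μ _ N
          (fun j => (mem_restrictTotalDegree _ _ _).mp (w j).2) i)⟩
      map_add' := by
        intro u w
        ext1 i
        apply Subtype.ext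
        have : (fun j => ((u + w) j : Pol n)) = (fun j => (u j : Pol n)) + fun j => (w j : Pol n) := by
          ext1 j; simp
        simp only [this, bz_add, LL_add]
        rfl
      map_smul' := by
        intro a w
        ext1 i
        apply Subtype.ext
        have : (fun j => ((a • w) j : Pol n)) = a • fun j => (w j : Pol n) := by
          ext1 j; simp
        simp only [this, bz_smul, LL_smul]
        rfl }
  have hinj : Function.Injective φ := by
    rw [injective_iff_map_eq_zero]
    intro w hw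
    have h1 : LL μ (bz fun j => (w j : Pol n)) = 0 := by
      ext1 i
      have := congrArg (fun v : Fin n → V => (v i : Pol n)) hw
      simpa [φ] using this
    have h2 := inj hμ _ h1
    ext1 i
    apply Subtype.ext
    exact congrFun h2 i
  have hsurj : Function.Surjective φ := LinearMap.injective_iff_surjective.mp hinj
  obtain ⟨w, hw⟩ := hsurj (fun i => ⟨f i, (mem_restrictTotalDegree _ _ _).mpr (hN i)⟩)
  refine ⟨fun j => (w j : Pol n), ?_⟩
  ext1 i
  have := congrArg (fun v : Fin n → V => (v i : Pol n)) hw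
  simpa [φ] using this

lemma reduction_aux [NeZero n] {μ : ℝ} (hμ : 0 < μ) (v w : Fld n) (hv : LL μ v = 0) :
    Ph μ v v ≤ Ph μ (v + bz w) (v + bz w) := by
  have h1 : Ph μ (bz w) v = 0 := by
    rw [green, hv]
    have h2 : LS (dt (bz w) (BB μ v)) = 0 := by
      unfold dt
      rw [map_sum]
      exact Finset.sum_eq_zero fun i _ => LS_bz _ _ _
    have h3 : LB (dt (bz w) (0 : Fld n)) = 0 := by
      unfold dt; simp
    rw [h2, h3, sub_zero]
  have h2 : 0 ≤ Ph μ (bz w) (bz w) := by
    unfold Ph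
    rw [tt_bz]
    have h4 := aa_nonneg (bz w)
    have h5 := LB_sq_nonneg (dv (bz w))
    positivity
  rw [Ph_add, Ph_symm μ v (v + bz w), Ph_symm μ (bz w) (v + bz w), Ph_add, Ph_add, h1,
      Ph_symm μ v (bz w), h1]
  linarith

/-- reduction to solutions of the Navier system -/
lemma reduction [NeZero n] {μ : ℝ} (hμ : 0 < μ) (u : Fld n) :
    ∃ v w : Fld n, u = v + bz w ∧ LL μ v = 0 ∧ Ph μ v v ≤ Ph μ u u := by
  obtain ⟨w, hw⟩ := surj hμ (LL μ u)
  obtain ⟨v, rfl⟩ : ∃ v, u = v + bz w := ⟨u - bz w, by simp⟩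
  rw [LL_add] at hw
  have hv : LL μ v = 0 := add_eq_right.mp hw.symm
  exact ⟨v, w, rfl, hv, reduction_aux hμ v w hv⟩

end Q187.Korn
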