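import Pool.Agent.Q187.Korn.Polar

/-!
# The divergence theorem for polynomials on the unit ball
-/

open MeasureTheory Set Metric MvPolynomial Filter Topology

namespace Q187.Korn

variable {n : ℕ}

lemma hasDerivAt_sqpos (s : ℝ) : HasDerivAt (fun s : ℝ => (max s 0) ^ 2) (2 * max s 0) s := by
  rcases lt_trichotomy s 0 with h | h | h
  · have h1 : (fun s : ℝ => (max s 0) ^ 2) =ᶠ[𝓝 s] fun _ => 0 := by
      filter_upwards [eventually_lt_nhds h] with y hy
      rw [max_eq_right hy.le]; norm_num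
    rw [max_eq_right h.le, mul_zero]
    exact (hasDerivAt_const s 0).congr_of_eventuallyEq h1
  · subst h
    rw [max_self, mul_zero, hasDerivAt_iff_isLittleO_nhds_zero]
    refine Asymptotics.IsBigO.trans_isLittleO (g := fun h : ℝ => h ^ 2) ?_
      (Asymptotics.isLittleO_pow_id one_lt_two)
    refine Asymptotics.IsBigO.of_bound 1 (Eventually.of_forall fun h => ?_)
    simp only [zero_add, max_self, smul_zero, sub_zero, one_mul, Real.norm_eq_abs]
    rcases le_total h 0 with h0 | h0
    · rw [max_eq_right h0]; simp; positivity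
    · rw [max_eq_left h0]; simp
  · have h1 : (fun s : ℝ => (max s 0) ^ 2) =ᶠ[𝓝 s] fun s => s ^ 2 := by
      filter_upwards [eventually_gt_nhds h] with y hy
      rw [max_eq_left hy.le]
    rw [max_eq_left h.le]
    have h2 := hasDerivAt_pow 2 s
    simp only [Nat.cast_ofNat, Nat.add_one_sub_one, pow_one] at h2
    exact h2.congr_of_eventuallyEq h1

/-- the bump -/
noncomputable def bump (x : E n) : ℝ := (max (1 - ‖x‖ ^ 2) 0) ^ 2

lemma hasFDerivAt_bump (x : E n) :
    HasFDerivAt (bump : E n → ℝ)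
      ((-(2 * max (1 - ‖x‖ ^ 2) 0)) • (∑ i, ev (pderiv i r2) x • (EuclideanSpace.proj i : E n →L[ℝ] ℝ))) x := by
  have h1 : (bump : E n → ℝ) = (fun s : ℝ => (max s 0) ^ 2) ∘ fun x => 1 - ev r2 x := by
    ext y; simp [bump, ev_r2]
  rw [h1]
  have h2 := (hasFDerivAt_ev (r2 : Pol n) x).const_sub 1
  have h3 := (hasDerivAt_sqpos (1 - ev r2 x)).comp_hasFDerivAt x h2
  rw [ev_r2] at h3
  refine h3.congr_fderiv ?_
  rw [smul_neg, neg_smul]

lemma pderiv_r2 (i : Fin n) : pderiv i (r2 : Pol n) = 2 * X i := by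
  unfold r2
  rw [map_sum, Finset.sum_eq_single i]
  · rw [pderiv_mul, pderiv_X_self]; ring
  · intro b _ hb
    rw [pderiv_mul, pderiv_X_of_ne (Ne.symm hb).symm]; ring
  · intro h; exact absurd (Finset.mem_univ i) h

lemma continuous_bump : Continuous (bump : E n → ℝ) := by
  unfold bump; fun_prop

lemma bump_ball (p : Pol n) :
    ∫ x : E n, ev p x * bump x = LB ((1 - r2) * (1 - r2) * p) := by
  rw [LB_apply]
  unfold IB
  rw [← setIntegral_eq_integral_of_forall_compl_eq_zero (s := ball (0 : E n) 1)]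
  · refine setIntegral_congr_fun measurableSet_ball fun x hx => ?_
    have hx1 : ‖x‖ < 1 := by simpa using hx
    have h1 : 0 ≤ 1 - ‖x‖ ^ 2 := by nlinarith [norm_nonneg x]
    simp only [bump, ev_mul, ev_sub, ev_one, ev_r2]
    rw [max_eq_left h1]; ring
  · intro x hx
    have hx1 : 1 ≤ ‖x‖ := by simpa using hx
    have h1 : 1 - ‖x‖ ^ 2 ≤ 0 := by nlinarith [norm_nonneg x]
    simp only [bump]
    rw [max_eq_right h1]; ring

lemma max_ball (p : Pol n) :
    ∫ x : E n, ev p x * max (1 - ‖x‖ ^ 2) 0 = LB ((1 - r2) * p) := by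
  rw [LB_apply]
  unfold IB
  rw [← setIntegral_eq_integral_of_forall_compl_eq_zero (s := ball (0 : E n) 1)]
  · refine setIntegral_congr_fun measurableSet_ball fun x hx => ?_
    have hx1 : ‖x‖ < 1 := by simpa using hx
    have h1 : 0 ≤ 1 - ‖x‖ ^ 2 := by nlinarith [norm_nonneg x]
    simp only [ev_mul, ev_sub, ev_one, ev_r2]
    rw [max_eq_left h1]; ring
  · intro x hx
    have hx1 : 1 ≤ ‖x‖ := by simpa using hx
    have h1 : 1 - ‖x‖ ^ 2 ≤ 0 := by nlinarith [norm_nonneg x]
    rw [max_eq_right h1]; ring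

lemma integrable_of_zero (f : E n → ℝ) (hf : Continuous f) (h0 : ∀ x, 1 ≤ ‖x‖ → f x = 0) :
    Integrable f := by
  refine hf.integrable_of_hasCompactSupport ?_
  refine HasCompactSupport.intro (isCompact_closedBall (0 : E n) 1) fun x hx => h0 x ?_
  have : ¬ ‖x‖ ≤ 1 := by simpa using hx
  linarith [not_le.mp this]

/-- integration by parts against the bump -/
lemma parts (g : Pol n) (i : Fin n) :
    4 * LB ((1 - r2) * (X i * g)) = LB ((1 - r2) * (1 - r2) * pderiv i g) := by
  set v : E n := EuclideanSpace.single i 1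
  set F' : E n → (E n →L[ℝ] ℝ) := fun x => ∑ i, ev (pderiv i g) x • (EuclideanSpace.proj i : E n →L[ℝ] ℝ)
  set G' : E n → (E n →L[ℝ] ℝ) := fun x => (-(2 * max (1 - ‖x‖ ^ 2) 0)) •
    (∑ i, ev (pderiv i r2) x • (EuclideanSpace.proj i : E n →L[ℝ] ℝ))
  have hF : ∀ x, F' x v = ev (pderiv i g) x := by
    intro x
    simp [F', v]
  have hG : ∀ x, G' x v = -(4 * (x i * max (1 - ‖x‖ ^ 2) 0)) := by
    intro x
    have h1 : (∑ i, ev (pderiv i r2) x • (EuclideanSpace.proj i : E n →L[ℝ] ℝ)) v
        = ev (pderiv i r2) x := by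
      simp [v]
    simp only [G', _root_.smul_apply]
    rw [h1, pderiv_r2]
    have h2 : ev (2 * X i : Pol n) x = 2 * x i := by
      rw [ev_mul, ev_X]
      have : (2 : Pol n) = C 2 := (map_ofNat C 2).symm
      rw [this, ev_C]
    rw [h2, smul_eq_mul]; ring
  have hb0 : ∀ x : E n, 1 ≤ ‖x‖ → bump x = 0 := by
    intro x hx
    have h1 : 1 - ‖x‖ ^ 2 ≤ 0 := by nlinarith [norm_nonneg x]
    simp only [bump]
    rw [max_eq_right h1]; ring
  have hm0 : ∀ x : E n, 1 ≤ ‖x‖ → max (1 - ‖x‖ ^ 2) 0 = 0 := by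
    intro x hx
    have h1 : 1 - ‖x‖ ^ 2 ≤ 0 := by nlinarith [norm_nonneg x]
    rw [max_eq_right h1]
  have key := integral_bilinear_hasFDerivAt_right_eq_neg_left_of_integrable
    (μ := (volume : Measure (E n))) (f := ev g) (f' := F') (g := bump) (g' := G') (v := v)
    (B := ContinuousLinearMap.mul ℝ ℝ) ?_ ?_ ?_ (fun x _ => hasFDerivAt_ev g x)
    (fun x _ => hasFDerivAt_bump x)
  · simp only [ContinuousLinearMap.mul_apply', hF, hG] at key
    rw [bump_ball] at key
    have h3 : ∀ x : E n, ev g x * -(4 * (x i * max (1 - ‖x‖ ^ 2) 0))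
        = (-4) * (ev (X i * g) x * max (1 - ‖x‖ ^ 2) 0) := by
      intro x; simp; ring
    simp only [h3] at key
    rw [integral_const_mul, max_ball] at key
    linarith
  · simp only [ContinuousLinearMap.mul_apply', hF]
    refine integrable_of_zero _ ((continuous_ev _).mul continuous_bump) fun x hx => ?_
    rw [hb0 x hx, mul_zero]
  · simp only [ContinuousLinearMap.mul_apply', hG]
    refine integrable_of_zero _ ((continuous_ev _).mul ?_) fun x hx => ?_
    · fun_prop
    · rw [hm0 x hx]; ring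
  · simp only [ContinuousLinearMap.mul_apply']
    refine integrable_of_zero _ ((continuous_ev _).mul continuous_bump) fun x hx => ?_
    rw [hb0 x hx, mul_zero]

lemma r2_hom : (r2 : Pol n).IsHomogeneous 2 := by
  unfold r2
  exact IsHomogeneous.sum _ _ _ fun i _ => (isHomogeneous_X ℝ i).mul (isHomogeneous_X ℝ i)

lemma LS_X_const [NeZero n] (g : Pol n) (hg : g.IsHomogeneous 0) (i : Fin n) :
    LS (X i * g) = 0 := by
  have h1 := parts g i
  have h0 : pderiv i g = 0 := by
    have h2 := hg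
    rw [← totalDegree_zero_iff_isHomogeneous, totalDegree_eq_zero_iff_eq_C] at h2
    rw [h2, pderiv_C]
  rw [h0, mul_zero, map_zero, sub_mul, one_mul, map_sub] at h1
  have hX : (X i * g).IsHomogeneous (1 + 0) := (isHomogeneous_X ℝ i).mul hg
  have h2 := LB_hom (X i * g) _ hX
  have h3 := LB_hom (r2 * (X i * g)) _ (r2_hom.mul hX)
  rw [LS_r2_mul] at h3
  push_cast at h2 h3
  have hn : (0 : ℝ) ≤ n := Nat.cast_nonneg n
  have h4 : LB (X i * g) = LB (r2 * (X i * g)) := by linarith
  rw [← h4] at h3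
  have h5 : LB (X i * g) = 0 := by nlinarith
  rw [← h2, h5, zero_mul]

/-- the divergence theorem on the sphere for homogeneous polynomials -/
lemma LS_pderiv_hom [NeZero n] (g : Pol n) (d : ℕ) (hg : g.IsHomogeneous d) (i : Fin n) :
    LS (pderiv i g) = (n + d - 1) * LS (X i * g) := by
  obtain _ | d := d
  · rw [LS_X_const g hg i]
    have h0 : pderiv i g = 0 := by
      have h2 := hg
      rw [← totalDegree_zero_iff_isHomogeneous, totalDegree_eq_zero_iff_eq_C] at h2
      rw [h2, pderiv_C]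
    rw [h0, map_zero, mul_zero]
  · have h1 := parts g i
    have hd : (pderiv i g).IsHomogeneous d := hg.pderiv
    have hX : (X i * g).IsHomogeneous (1 + (d + 1)) := (isHomogeneous_X ℝ i).mul hg
    have h2 := LB_hom (X i * g) _ hX
    have h3 := LB_hom (r2 * (X i * g)) _ (r2_hom.mul hX)
    have h4 := LB_hom (pderiv i g) _ hd
    have h5 := LB_hom (r2 * pderiv i g) _ (r2_hom.mul hd)
    have h6 := LB_hom (r2 * (r2 * pderiv i g)) _ (r2_hom.mul (r2_hom.mul hd))
    rw [LS_r2_mul] at h3 h5 h6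
    rw [LS_r2_mul] at h6
    have e1 : (1 - r2) * (X i * g) = X i * g - r2 * (X i * g) := by ring
    have e2 : (1 - r2) * (1 - r2) * pderiv i g
        = pderiv i g - (2 : ℝ) • (r2 * pderiv i g) + r2 * (r2 * pderiv i g) := by
      rw [smul_eq_C_mul, map_ofNat]; ring
    rw [e1, e2, map_add, map_sub, map_sub, map_smul, smul_eq_mul] at h1
    push_cast at h2 h3 h4 h5 h6 ⊢
    have hn : (1 : ℝ) ≤ n := by exact_mod_cast Nat.pos_of_ne_zero (NeZero.ne n)
    have hd0 : (0 : ℝ) ≤ d := Nat.cast_nonneg d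
    set A := LS (pderiv i g)
    set B := LS (X i * g)
    set N : ℝ := n + d with hN
    have hN1 : 1 ≤ N := by linarith
    have k2 : LB (X i * g) = B / (N + 2) := by
      rw [eq_div_iff (by linarith), ← h2]; rw [hN]; ring
    have k3 : LB (r2 * (X i * g)) = B / (N + 4) := by
      rw [eq_div_iff (by linarith), ← h3]; rw [hN]; ring
    have k4 : LB (pderiv i g) = A / N := by
      rw [eq_div_iff (by linarith), ← h4]
    have k5 : LB (r2 * pderiv i g) = A / (N + 2) := by
      rw [eq_div_iff (by linarith), ← h5]; rw [hN]; ring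
    have k6 : LB (r2 * (r2 * pderiv i g)) = A / (N + 4) := by
      rw [eq_div_iff (by linarith), ← h6]; rw [hN]; ring
    rw [k2, k3, k4, k5, k6] at h1
    have hN0 : N ≠ 0 := by linarith
    have hN2 : N + 2 ≠ 0 := by linarith
    have hN4 : N + 4 ≠ 0 := by linarith
    field_simp at h1
    have h7 : (n : ℝ) + (d + 1) - 1 = N := by rw [hN]; ring
    rw [h7]
    nlinarith [h1]

/-- the divergence theorem -/
lemma LB_pderiv [NeZero n] (g : Pol n) (i : Fin n) : LB (pderiv i g) = LS (X i * g) := by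
  induction g using MvPolynomial.induction_on' with
  | monomial u a =>
    have hg : (monomial u a : Pol n).IsHomogeneous u.degree := isHomogeneous_monomial a rfl
    revert hg
    generalize (monomial u a : Pol n) = g
    generalize u.degree = d
    intro hg
    obtain _ | d := d
    · rw [LS_X_const g hg i]
      have h0 : pderiv i g = 0 := by
        have h2 := hg
        rw [← totalDegree_zero_iff_isHomogeneous, totalDegree_eq_zero_iff_eq_C] at h2
        rw [h2, pderiv_C]
      rw [h0, map_zero]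
    · have h1 := LS_pderiv_hom g (d + 1) hg i
      have h2 := LB_hom (pderiv i g) d hg.pderiv
      rw [← h2] at h1
      push_cast at h1
      have hn : (1 : ℝ) ≤ n := by exact_mod_cast Nat.pos_of_ne_zero (NeZero.ne n)
      have hd0 : (0 : ℝ) ≤ d := Nat.cast_nonneg d
      have h3 : (n : ℝ) + (d + 1) - 1 = n + d := by ring
      rw [h3, mul_comm] at h1
      exact mul_left_cancel₀ (by linarith : (n : ℝ) + d ≠ 0) h1
  | add p q hp hq =>
    rw [map_add, map_add, hp, hq, mul_add, map_add]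

lemma LB_sq_nonneg (p : Pol n) : 0 ≤ LB (p * p) := by
  rw [LB_apply]
  unfold IB
  refine integral_nonneg fun w => ?_
  simp only [ev_mul]
  exact mul_self_nonneg _

lemma ev_eq_zero_of_ball (p : Pol n) (h : ∀ x ∈ ball (0 : E n) 1, ev p x = 0) : p = 0 := by
  have hn : (0 : ℝ) ≤ n := Nat.cast_nonneg n
  refine funext_set (fun _ => Ioo (0 : ℝ) (1 / (n + 1))) (fun _ => Ioo_infinite (by positivity)) ?_
  intro x hx
  rw [map_zero]
  refine h (WithLp.toLp 2 x) ?_
  rw [mem_ball_zero_iff, EuclideanSpace.norm_eq]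
  rw [Real.sqrt_lt' one_pos, one_pow]
  have h1 : ∀ i ∈ (Finset.univ : Finset (Fin n)), ‖(WithLp.toLp 2 x : E n) i‖ ^ 2 ≤ (1 / ((n : ℝ) + 1)) ^ 2 := by
    intro i _
    have := hx i (Set.mem_univ i)
    simp only [Set.mem_Ioo] at this
    rw [Real.norm_eq_abs, sq_abs]
    exact pow_le_pow_left₀ this.1.le this.2.le 2
  calc _ ≤ ∑ i : Fin n, (1 / ((n : ℝ) + 1)) ^ 2 := Finset.sum_le_sum h1
    _ = n * (1 / ((n : ℝ) + 1)) ^ 2 := by simp
    _ < 1 := by
      rw [div_pow, one_pow, mul_one_div, div_lt_one (by positivity)]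
      nlinarith

lemma LB_sq_eq_zero (p : Pol n) (h : LB (p * p) = 0) : p = 0 := by
  refine ev_eq_zero_of_ball p ?_
  rw [LB_apply] at h
  unfold IB at h
  rw [setIntegral_eq_zero_iff_of_nonneg_ae] at h
  · have h1 := Measure.eqOn_open_of_ae_eq h isOpen_ball (continuous_ev _).continuousOn
      continuousOn_const
    intro x hx
    have := h1 hx
    simpa using this
  · refine Eventually.of_forall fun x => ?_
    simp only [ev_mul, Pi.zero_apply]
    exact mul_self_nonneg _
  · exact integrableOn_ev _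

lemma LS_one_pos [NeZero n] : 0 < LS (1 : Pol n) := by
  have h1 := LB_hom (1 : Pol n) 0 (isHomogeneous_one _ _)
  have h2 : 0 < LB (1 : Pol n) := by
    refine lt_of_le_of_ne ?_ fun h => ?_
    · have := LB_sq_nonneg (1 : Pol n); simpa using this
    · have := LB_sq_eq_zero (1 : Pol n) (by rw [mul_one]; exact h.symm)
      exact one_ne_zero this
  have hn : (1 : ℝ) ≤ n := by exact_mod_cast Nat.pos_of_ne_zero (NeZero.ne n)
  rw [← h1]
  push_cast
  positivity

end Q187.Korn
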