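import Pool.Agent.Q187.Korn.Field

/-!
# Orthogonality on the sphere
-/

open MeasureTheory Set Metric MvPolynomial Filter Topology

namespace Q187.Korn

variable {n : ℕ}

lemma C_ofNat2 : (C 2 : Pol n) = 2 := map_ofNat C 2
lemma C_ofNat4 : (C 4 : Pol n) = 4 := map_ofNat C 4

lemma euler (g : Pol n) (d : ℕ) (hg : g.IsHomogeneous d) : ∑ j, X j * pderiv j g = C (d : ℝ) * g := by
  rw [hg.sum_X_mul_pderiv, nsmul_eq_mul, map_natCast]

lemma sum_delta (i : Fin n) (f : Fin n → Pol n) : ∑ j, pderiv j (X i : Pol n) * f j = f i := by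
  rw [Finset.sum_eq_single i]
  · rw [pderiv_X_self, one_mul]
  · intro b _ hb
    rw [pderiv_X_of_ne (Ne.symm hb), zero_mul]
  · intro h; exact absurd (Finset.mem_univ i) h

lemma sum_delta' (i : Fin n) (f : Fin n → Pol n) : ∑ j, pderiv i (X j : Pol n) * f j = f i := by
  rw [Finset.sum_eq_single i]
  · rw [pderiv_X_self, one_mul]
  · intro b _ hb
    rw [pderiv_X_of_ne hb, zero_mul]
  · intro h; exact absurd (Finset.mem_univ i) h

lemma pd_xd (w : Fld n) (i : Fin n) : pderiv i (xd w) = w i + ∑ j, X j * pderiv i (w j) := by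
  unfold xd
  rw [map_sum]
  simp only [pderiv_mul, Finset.sum_add_distrib]
  rw [sum_delta' i w]

lemma lap_add (f g : Pol n) : lap (f + g) = lap f + lap g := by
  unfold lap; simp only [map_add, Finset.sum_add_distrib]

lemma lap_sub (f g : Pol n) : lap (f - g) = lap f - lap g := by
  unfold lap; simp only [map_sub, Finset.sum_sub_distrib]

lemma lap_C_mul (a : ℝ) (g : Pol n) : lap (C a * g) = C a * lap g := by
  unfold lap; simp only [pderiv_C_mul, Finset.mul_sum]

lemma lap_zero : lap (0 : Pol n) = 0 := by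
  unfold lap; simp

lemma lap_X_mul (g : Pol n) (i : Fin n) : lap (X i * g) = C 2 * pderiv i g + X i * lap g := by
  unfold lap
  have h1 : ∀ j : Fin n, pderiv j (pderiv j (X i * g))
      = pderiv j (X i : Pol n) * pderiv j g + pderiv j (X i : Pol n) * pderiv j g
        + X i * pderiv j (pderiv j g) := by
    intro j
    rw [pderiv_mul, map_add, pderiv_mul, pderiv_mul]
    have h2 : pderiv j (pderiv j (X i : Pol n)) = 0 := by
      rw [pderiv_X]
      simp only [Pi.single_apply]
      split_ifs <;> simp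
    rw [h2]; ring
  simp only [h1, Finset.sum_add_distrib, sum_delta, ← Finset.mul_sum]
  rw [C_ofNat2]; ring

lemma lap_r2_mul (g : Pol n) :
    lap (r2 * g) = C (2 * n : ℝ) * g + C 4 * ∑ j, X j * pderiv j g + r2 * lap g := by
  unfold lap
  have h1 : ∀ j : Fin n, pderiv j (pderiv j (r2 * g))
      = 2 * g + 4 * (X j * pderiv j g) + r2 * pderiv j (pderiv j g) := by
    intro j
    rw [pderiv_mul, map_add, pderiv_mul, pderiv_mul, pderiv_r2, pderiv_mul, pderiv_X_self]
    have h2 : pderiv j (2 : Pol n) = 0 := by rw [← C_ofNat2, pderiv_C]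
    rw [h2]; ring
  simp only [h1, Finset.sum_add_distrib, ← Finset.mul_sum]
  rw [Finset.sum_const, Finset.card_univ, Fintype.card_fin, nsmul_eq_mul, C_ofNat4, C_mul,
    C_ofNat2, map_natCast]
  ring

lemma lap_pd (g : Pol n) (i : Fin n) : lap (pderiv i g) = pderiv i (lap g) := by
  unfold lap
  rw [map_sum]
  refine Finset.sum_congr rfl fun j _ => ?_
  rw [pd_comm j i g, pd_comm j i (pderiv j g)]

lemma lap_dv (w : Fld n) : lap (dv w) = dv (fun i => lap (w i)) := by
  unfold dv
  have h1 : lap (∑ i, pderiv i (w i)) = ∑ i, lap (pderiv i (w i)) := by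
    unfold lap
    simp only [map_sum]
    rw [Finset.sum_comm]
  rw [h1]
  exact Finset.sum_congr rfl fun i _ => lap_pd _ _

lemma dv_grad (p : Pol n) : dv (fun i => pderiv i p) = lap p := rfl

/-- (O2) -/
lemma LS_grad_grad [NeZero n] (f g : Pol n) (i j : ℕ) (hf : f.IsHomogeneous i)
    (hg : g.IsHomogeneous j) (hgl : lap g = 0) :
    LS (∑ k, pderiv k f * pderiv k g) = j * (n + i + j - 2) * LS (f * g) := by
  obtain _ | j := j
  · have h0 : ∀ k, pderiv k g = 0 := by
      intro k
      have h2 := hg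
      rw [← totalDegree_zero_iff_isHomogeneous, totalDegree_eq_zero_iff_eq_C] at h2
      rw [h2, pderiv_C]
    simp [h0]
  · have h1 : ∀ k : Fin n, LS (pderiv k (f * pderiv k g))
        = (n + (i + j : ℕ) - 1) * LS (X k * (f * pderiv k g)) := by
      intro k
      exact LS_pderiv_hom _ _ (hf.mul hg.pderiv) k
    have h2 : ∑ k : Fin n, LS (pderiv k (f * pderiv k g)) = LS (∑ k, pderiv k f * pderiv k g) := by
      rw [← map_sum]
      congr 1
      simp only [pderiv_mul, Finset.sum_add_distrib, ← Finset.mul_sum]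
      have : ∑ i, pderiv i (pderiv i g) = 0 := hgl
      rw [this]; ring
    have h3 : ∑ k : Fin n, LS (X k * (f * pderiv k g)) = (j + 1) * LS (f * g) := by
      rw [← map_sum]
      have : ∑ k : Fin n, X k * (f * pderiv k g) = f * ∑ k, X k * pderiv k g := by
        rw [Finset.mul_sum]
        exact Finset.sum_congr rfl fun k _ => by ring
      rw [this, euler g (j + 1) hg]
      have : f * (C ((j + 1 : ℕ) : ℝ) * g) = C ((j + 1 : ℕ) : ℝ) * (f * g) := by ring
      rw [this, LS_C_mul]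
      push_cast; ring
    rw [← h2, Finset.sum_congr rfl fun k _ => h1 k, ← Finset.mul_sum, h3]
    push_cast; ring

/-- (O1) -/
lemma LS_orth [NeZero n] (hn : 3 ≤ n) (f g : Pol n) (i j : ℕ) (hf : f.IsHomogeneous i)
    (hfl : lap f = 0) (hg : g.IsHomogeneous j) (hgl : lap g = 0) (hij : i ≠ j) :
    LS (f * g) = 0 := by
  have h1 := LS_grad_grad f g i j hf hg hgl
  have h2 := LS_grad_grad g f j i hg hf hfl
  have h3 : ∑ k, pderiv k f * pderiv k g = ∑ k, pderiv k g * pderiv k f :=
    Finset.sum_congr rfl fun k _ => mul_comm _ _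
  rw [h3, h2, mul_comm g f] at h1
  have hn3 : (3 : ℝ) ≤ n := by exact_mod_cast hn
  have h4 : ((i : ℝ) - j) * (n + i + j - 2) * LS (f * g) = 0 := by linear_combination h1
  have h5 : ((i : ℝ) - j) ≠ 0 := by
    rw [sub_ne_zero]; exact_mod_cast hij
  have h6 : (n : ℝ) + i + j - 2 ≠ 0 := by
    have := Nat.cast_nonneg (α := ℝ) i
    have := Nat.cast_nonneg (α := ℝ) j
    linarith
  rcases mul_eq_zero.mp h4 with h | h
  · exact absurd h (mul_ne_zero h5 h6)
  · exact h

/-- (O3) -/
lemma LS_T_grad [NeZero n] (T : Fld n) (g : Pol n) (k j : ℕ) (hT : ∀ i, (T i).IsHomogeneous k)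
    (hTx : xd T = 0) (hTd : dv T = 0) (hg : g.IsHomogeneous j) :
    LS (∑ i, T i * pderiv i g) = 0 := by
  have h1 : ∀ i : Fin n, LS (pderiv i (g * T i)) = (n + (j + k : ℕ) - 1) * LS (X i * (g * T i)) :=
    fun i => LS_pderiv_hom _ _ (hg.mul (hT i)) i
  have h2 : ∑ i : Fin n, LS (pderiv i (g * T i)) = LS (∑ i, T i * pderiv i g) := by
    rw [← map_sum]
    congr 1
    simp only [pderiv_mul, Finset.sum_add_distrib, ← Finset.mul_sum]
    have : ∑ i, pderiv i (T i) = 0 := hTd
    rw [this, mul_zero, add_zero]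
    exact Finset.sum_congr rfl fun i _ => mul_comm _ _
  have h3 : ∑ i : Fin n, LS (X i * (g * T i)) = 0 := by
    rw [← map_sum]
    have : ∑ i : Fin n, X i * (g * T i) = g * xd T := by
      unfold xd
      rw [Finset.mul_sum]
      exact Finset.sum_congr rfl fun k _ => by ring
    rw [this, hTx, mul_zero, map_zero]
  rw [← h2, Finset.sum_congr rfl fun k _ => h1 k, ← Finset.mul_sum, h3, mul_zero]

/-- triples of type `l` -/
structure Typ (l : ℕ) (T : Fld n) (f g : Pol n) : Prop where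
  Th : ∀ i, (T i).IsHomogeneous l
  Tl : ∀ i, lap (T i) = 0
  Tx : xd T = 0
  Td : dv T = 0
  fh : f.IsHomogeneous l
  fl : lap f = 0
  gh : g.IsHomogeneous l
  gl : lap g = 0

/-- the field of a triple -/
noncomputable def FF (T : Fld n) (f g : Pol n) : Fld n := fun i => T i + pderiv i f + X i * g

lemma FF_pair [NeZero n] {l j : ℕ} {T T' : Fld n} {f g f' g' : Pol n}
    (h : Typ l T f g) (h' : Typ j T' f' g') :
    LS (dt (FF T f g) (FF T' f' g')) = LS (dt T T') + j * (n + l + j - 2) * LS (f * f')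
      + l * LS (f * g') + j * LS (g * f') + LS (g * g') := by
  have e : dt (FF T f g) (FF T' f' g') = dt T T' + (∑ i, T i * pderiv i f') + xd T * g'
      + (∑ i, T' i * pderiv i f) + (∑ i, pderiv i f * pderiv i f') + (∑ i, X i * pderiv i f) * g'
      + g * xd T' + g * (∑ i, X i * pderiv i f') + r2 * (g * g') := by
    unfold dt FF xd r2
    simp only [Finset.sum_mul, Finset.mul_sum, ← Finset.sum_add_distrib]
    exact Finset.sum_congr rfl fun i _ => by ring
  rw [e, h.Tx, h'.Tx, euler f l h.fh, euler f' j h'.fh]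
  simp only [map_add, zero_mul, mul_zero, add_zero]
  rw [LS_T_grad T f' l j h.Th h.Tx h.Td h'.fh, LS_T_grad T' f j l h'.Th h'.Tx h'.Td h.fh,
    LS_grad_grad f f' l j h.fh h'.fh h'.fl, LS_r2_mul]
  have e1 : C (l : ℝ) * f * g' = C (l : ℝ) * (f * g') := by ring
  have e2 : g * (C (j : ℝ) * f') = C (j : ℝ) * (g * f') := by ring
  rw [e1, e2, LS_C_mul, LS_C_mul]
  ring

lemma FF_orth [NeZero n] (hn : 3 ≤ n) {l j : ℕ} {T T' : Fld n} {f g f' g' : Pol n}
    (h : Typ l T f g) (h' : Typ j T' f' g') (hlj : l ≠ j) :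
    LS (dt (FF T f g) (FF T' f' g')) = 0 := by
  rw [FF_pair h h']
  have h1 : LS (dt T T') = 0 := by
    unfold dt
    rw [map_sum]
    exact Finset.sum_eq_zero fun i _ =>
      LS_orth hn _ _ l j (h.Th i) (h.Tl i) (h'.Th i) (h'.Tl i) hlj
  rw [h1, LS_orth hn _ _ l j h.fh h.fl h'.fh h'.fl hlj,
    LS_orth hn _ _ l j h.fh h.fl h'.gh h'.gl hlj,
    LS_orth hn _ _ l j h.gh h.gl h'.fh h'.fl hlj,
    LS_orth hn _ _ l j h.gh h.gl h'.gh h'.gl hlj]
  ring

end Q187.Korn
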