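import Mathlib

/-!
# Integrals of polynomials over the unit ball and the unit sphere
-/

open MeasureTheory Set Metric MvPolynomial

namespace Q187.Korn

variable {n : ℕ}

/-- Euclidean space -/
abbrev E (n : ℕ) := EuclideanSpace ℝ (Fin n)

/-- polynomials -/
abbrev Pol (n : ℕ) := MvPolynomial (Fin n) ℝ

/-- evaluation of a polynomial at a point -/
noncomputable def ev (p : Pol n) (x : E n) : ℝ := eval (fun i => x i) p

@[simp] lemma ev_add (p q : Pol n) (x : E n) : ev (p + q) x = ev p x + ev q x := by simp [ev]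
@[simp] lemma ev_sub (p q : Pol n) (x : E n) : ev (p - q) x = ev p x - ev q x := by simp [ev]
@[simp] lemma ev_neg (p : Pol n) (x : E n) : ev (-p) x = - ev p x := by simp [ev]
@[simp] lemma ev_mul (p q : Pol n) (x : E n) : ev (p * q) x = ev p x * ev q x := by simp [ev]
@[simp] lemma ev_pow (p : Pol n) (k : ℕ) (x : E n) : ev (p ^ k) x = ev p x ^ k := by simp [ev]
@[simp] lemma ev_X (i : Fin n) (x : E n) : ev (X i) x = x i := by simp [ev]
@[simp] lemma ev_C (a : ℝ) (x : E n) : ev (C a) x = a := by simp [ev]
@[simp] lemma ev_zero (x : E n) : ev 0 x = 0 := by simp [ev]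
@[simp] lemma ev_one (x : E n) : ev 1 x = 1 := by simp [ev]
@[simp] lemma ev_smul (a : ℝ) (p : Pol n) (x : E n) : ev (a • p) x = a * ev p x := by simp [ev]
@[simp] lemma ev_sum {ι : Type*} (s : Finset ι) (p : ι → Pol n) (x : E n) :
    ev (∑ i ∈ s, p i) x = ∑ i ∈ s, ev (p i) x := by simp [ev]

lemma continuous_ev (p : Pol n) : Continuous (ev p) := by
  unfold ev
  have h : Continuous (fun x : E n => (fun i => x i : Fin n → ℝ)) := by fun_prop
  exact (MvPolynomial.continuous_eval p).comp h

/-- derivative of a polynomial function -/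
lemma hasFDerivAt_ev (p : Pol n) (x : E n) :
    HasFDerivAt (ev p) (∑ i, ev (pderiv i p) x • (EuclideanSpace.proj i : E n →L[ℝ] ℝ)) x := by
  induction p using MvPolynomial.induction_on with
  | C a =>
    simp only [pderiv_C, ev_zero, zero_smul, Finset.sum_const_zero]
    have : ev (C a : Pol n) = fun _ => a := by ext y; simp
    rw [this]
    exact hasFDerivAt_const _ _
  | add p q hp hq =>
    have h0 : ev (p + q) = ev p + ev q := by ext y; simp
    rw [h0]
    refine (hp.add hq).congr_fderiv ?_
    simp only [map_add, ev_add, add_smul, Finset.sum_add_distrib]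
  | mul_X p j hp =>
    have h0 : ev (p * X j) = ev p * fun y => y j := by ext y; simp
    rw [h0]
    have hx : HasFDerivAt (fun y : E n => y j) (EuclideanSpace.proj j : E n →L[ℝ] ℝ) x :=
      (EuclideanSpace.proj j : E n →L[ℝ] ℝ).hasFDerivAt
    refine (hp.mul hx).congr_fderiv ?_
    simp only [pderiv_mul, ev_add, ev_mul, ev_X, add_smul, Finset.sum_add_distrib, pderiv_X,
      Finset.smul_sum]
    rw [add_comm]
    congr 1
    · refine Finset.sum_congr rfl fun i _ => ?_
      rw [smul_smul, mul_comm]
    · rw [Finset.sum_eq_single j]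
      · simp
      · intro b _ hb; simp [hb]
      · intro h; exact absurd (Finset.mem_univ j) h

/-! ### Integrals -/

/-- integral over the unit ball -/
noncomputable def IB (p : Pol n) : ℝ := ∫ x in ball (0 : E n) 1, ev p x

/-- integral over the unit sphere -/
noncomputable def IS (p : Pol n) : ℝ :=
  ∫ w : sphere (0 : E n) 1, ev p (w : E n) ∂((volume : Measure (E n)).toSphere)

lemma integrableOn_ev (p : Pol n) : IntegrableOn (ev p) (ball (0 : E n) 1) := by
  have h : IntegrableOn (ev p) (closedBall (0 : E n) 1) :=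
    (continuous_ev p).continuousOn.integrableOn_compact (isCompact_closedBall _ _)
  exact h.mono_set ball_subset_closedBall

lemma integrable_sphere (p : Pol n) :
    Integrable (fun w : sphere (0 : E n) 1 => ev p (w : E n))
      ((volume : Measure (E n)).toSphere) := by
  have hc : Continuous (fun w : sphere (0 : E n) 1 => ev p (w : E n)) :=
    (continuous_ev p).comp continuous_subtype_val
  exact hc.integrable_of_hasCompactSupport (HasCompactSupport.of_compactSpace _)

lemma IB_add (p q : Pol n) : IB (p + q) = IB p + IB q := by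
  unfold IB
  simp only [ev_add]
  exact integral_add (integrableOn_ev p) (integrableOn_ev q)

lemma IB_smul (a : ℝ) (p : Pol n) : IB (a • p) = a * IB p := by
  unfold IB
  simp only [ev_smul]
  exact integral_const_mul _ _

lemma IS_add (p q : Pol n) : IS (p + q) = IS p + IS q := by
  unfold IS
  simp only [ev_add]
  exact integral_add (integrable_sphere p) (integrable_sphere q)

lemma IS_smul (a : ℝ) (p : Pol n) : IS (a • p) = a * IS p := by
  unfold IS
  simp only [ev_smul]
  exact integral_const_mul _ _

/-- the ball integral as a linear map -/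
noncomputable def LB : Pol n →ₗ[ℝ] ℝ where
  toFun := IB
  map_add' := IB_add
  map_smul' a p := by rw [IB_smul]; rfl

/-- the sphere integral as a linear map -/
noncomputable def LS : Pol n →ₗ[ℝ] ℝ where
  toFun := IS
  map_add' := IS_add
  map_smul' a p := by rw [IS_smul]; rfl

lemma LB_apply (p : Pol n) : LB p = IB p := rfl
lemma LS_apply (p : Pol n) : LS p = IS p := rfl

/-- `|x|²` -/
noncomputable def r2 : Pol n := ∑ i, X i * X i

lemma ev_r2 (x : E n) : ev r2 x = ‖x‖ ^ 2 := by
  unfold r2
  rw [ev_sum, EuclideanSpace.norm_sq_eq]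
  refine Finset.sum_congr rfl fun i _ => ?_
  simp [sq]

/-- on the sphere `|x|² = 1` -/
lemma LS_r2_mul (p : Pol n) : LS (r2 * p) = LS p := by
  rw [LS_apply, LS_apply]
  unfold IS
  refine integral_congr_ae (Filter.Eventually.of_forall fun w => ?_)
  simp only [ev_mul, ev_r2]
  have : ‖(w : E n)‖ = 1 := by simpa using w.2
  rw [this]; ring

lemma LS_sq_nonneg (p : Pol n) : 0 ≤ LS (p * p) := by
  rw [LS_apply]
  unfold IS
  refine integral_nonneg fun w => ?_
  simp only [ev_mul]
  exact mul_self_nonneg _

/-- polar coordinates -/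
lemma polar [NeZero n] (g : E n → ℝ) (d : ℕ) (hg : ∀ (r : ℝ) (x : E n), 0 < r → g (r • x) = r ^ d * g x)
    (φ : ℝ → ℝ) :
    ∫ x : E n, φ ‖x‖ * g x
      = (∫ w : sphere (0 : E n) 1, g w ∂((volume : Measure (E n)).toSphere)) *
        ∫ r in Ioi (0 : ℝ), r ^ (n - 1) * (φ r * r ^ d) := by
  have hdim : Module.finrank ℝ (E n) = n := by simp
  have hpos : 0 < n := Nat.pos_of_ne_zero (NeZero.ne n)
  have : Nontrivial (E n) := Module.nontrivial_of_finrank_pos (R := ℝ) (by rw [hdim]; exact hpos)
  have hmp := (volume : Measure (E n)).measurePreserving_homeomorphUnitSphereProd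
  calc ∫ x : E n, φ ‖x‖ * g x
      = ∫ x : ({(0)}ᶜ : Set (E n)), φ ‖x.1‖ * g x.1 ∂((volume : Measure (E n)).comap (↑)) := by
        rw [integral_subtype_comap (measurableSet_singleton _).compl fun x : E n => φ ‖x‖ * g x,
          restrict_compl_singleton]
    _ = ∫ x : ({(0)}ᶜ : Set (E n)), (fun z : sphere (0 : E n) 1 × Ioi (0 : ℝ) =>
          g z.1 * (φ z.2 * (z.2 : ℝ) ^ d)) (homeomorphUnitSphereProd (E n) x)
          ∂((volume : Measure (E n)).comap (↑)) := by
        refine integral_congr_ae (Filter.Eventually.of_forall fun x => ?_)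
        have hx : 0 < ‖x.1‖ := norm_pos_iff.mpr x.2
        simp only [homeomorphUnitSphereProd_apply_snd_coe, homeomorphUnitSphereProd_apply_fst_coe]
        have h1 := hg ‖x.1‖ (‖x.1‖⁻¹ • x.1) hx
        rw [smul_smul, mul_inv_cancel₀ hx.ne', one_smul] at h1
        rw [h1]; ring
    _ = ∫ z, g z.1 * (φ z.2 * (z.2 : ℝ) ^ d)
          ∂((volume : Measure (E n)).toSphere.prod
            (Measure.volumeIoiPow (Module.finrank ℝ (E n) - 1))) :=
        hmp.integral_comp (Homeomorph.measurableEmbedding _)
          (fun z : sphere (0 : E n) 1 × Ioi (0 : ℝ) => g z.1 * (φ z.2 * (z.2 : ℝ) ^ d))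
    _ = (∫ w : sphere (0 : E n) 1, g w ∂((volume : Measure (E n)).toSphere)) *
          ∫ r : Ioi (0 : ℝ), φ r * (r : ℝ) ^ d
            ∂(Measure.volumeIoiPow (Module.finrank ℝ (E n) - 1)) :=
        integral_prod_mul (fun w : sphere (0 : E n) 1 => g w)
          (fun r : Ioi (0 : ℝ) => φ r * (r : ℝ) ^ d)
    _ = _ := by
        congr 1
        rw [hdim]
        simp only [Measure.volumeIoiPow, ENNReal.ofReal]
        rw [integral_withDensity_eq_integral_smul,
          integral_subtype_comap measurableSet_Ioi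
            fun a : ℝ => Real.toNNReal (a ^ (n - 1)) • (φ a * a ^ d),
          setIntegral_congr_fun measurableSet_Ioi fun x hx => ?_]
        · rw [NNReal.smul_def, Real.coe_toNNReal _ (pow_nonneg hx.out.le _), smul_eq_mul]
        · exact (measurable_subtype_coe.pow_const _).real_toNNReal

lemma ev_smul_point (p : Pol n) (d : ℕ) (hp : p.IsHomogeneous d) (r : ℝ) (x : E n) :
    ev p (r • x) = r ^ d * ev p x := by
  unfold ev
  rw [eval_eq', eval_eq', Finset.mul_sum]
  refine Finset.sum_congr rfl fun m hm => ?_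
  have hdeg : ∑ i, m i = d := by
    have h1 := hp (mem_support_iff.mp hm)
    rw [← h1]
    simp [Finsupp.weight_apply, Finsupp.sum_fintype]
  have h2 : ∏ i, ((r • x) i) ^ m i = r ^ d * ∏ i, x i ^ m i := by
    simp only [PiLp.smul_apply, smul_eq_mul, mul_pow]
    rw [Finset.prod_mul_distrib, Finset.prod_pow_eq_pow_sum, hdeg]
  rw [h2]; ring

/-- ball integrals of homogeneous polynomials -/
lemma LB_hom [NeZero n] (p : Pol n) (d : ℕ) (hp : p.IsHomogeneous d) :
    LB p * (n + d) = LS p := by
  have h1 := polar (ev p) d (fun r x _ => ev_smul_point p d hp r x) ((Iio (1 : ℝ)).indicator 1)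
  have h2 : ∫ x : E n, (Iio (1 : ℝ)).indicator 1 ‖x‖ * ev p x = LB p := by
    rw [LB_apply]
    unfold IB
    rw [← integral_indicator measurableSet_ball]
    refine integral_congr_ae (Filter.Eventually.of_forall fun x => ?_)
    by_cases hx : ‖x‖ < 1
    · simp [Set.indicator, hx]
    · simp [Set.indicator, hx]
  have hn : 1 ≤ n := Nat.pos_of_ne_zero (NeZero.ne n)
  have h3 : ∫ r in Ioi (0 : ℝ), r ^ (n - 1) * ((Iio (1 : ℝ)).indicator 1 r * r ^ d)
      = 1 / (n + d) := by
    have h4 : ∀ r ∈ Ioi (0 : ℝ), r ^ (n - 1) * ((Iio (1 : ℝ)).indicator 1 r * r ^ d)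
        = (Iio (1 : ℝ)).indicator (fun r => r ^ (n - 1 + d)) r := by
      intro r _
      by_cases hr : r < 1
      · simp [Set.indicator, hr, pow_add]
      · simp [Set.indicator, hr]
    rw [setIntegral_congr_fun measurableSet_Ioi h4, setIntegral_indicator measurableSet_Iio,
      Ioi_inter_Iio, ← integral_Ioc_eq_integral_Ioo, ← intervalIntegral.integral_of_le (by norm_num),
      integral_pow]
    have : ((n - 1 + d : ℕ) : ℝ) + 1 = n + d := by
      rw [← Nat.cast_succ]
      have : (n - 1 + d).succ = n + d := by omega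
      rw [this]; push_cast; rfl
    rw [this]; simp
  rw [h2, h3] at h1
  have hpos : (0 : ℝ) < n + d := by
    have : (1 : ℝ) ≤ n := by exact_mod_cast hn
    positivity
  rw [h1, LS_apply]
  unfold IS
  field_simp

end Q187.Korn
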