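import Pool.Agent.Q187.Korn.Upper

/-!
# Constants and sharpness
-/

open MeasureTheory Set Metric MvPolynomial Filter Topology
open scoped ContDiff

namespace Q187.Korn

variable {n : ℕ}

/-- the parameter -/
noncomputable def mu (n m : ℕ) : ℝ := (m + 1) * (n + m) / (2 * (n + 2 * m) * (m + 2))

/-- the Korn constant -/
noncomputable def Kc (n m : ℕ) : ℝ := 4 + 2 * (n - 2) * m / (m ^ 2 + 3 * m + n)

lemma Kc_pos (hn : 3 ≤ n) (m : ℕ) : 0 < Kc n m := by
  have h3 : (3 : ℝ) ≤ n := by exact_mod_cast hn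
  unfold Kc
  have : (0 : ℝ) ≤ 2 * (n - 2) * m / (m ^ 2 + 3 * m + n) := by
    have : (0 : ℝ) ≤ (n : ℝ) - 2 := by linarith
    positivity
  linarith

lemma mu_Kc (hn : 3 ≤ n) (m : ℕ) : mu n m = 1 / 2 - 1 / Kc n m := by
  have h3 : (3 : ℝ) ≤ n := by exact_mod_cast hn
  have hm : (0 : ℝ) ≤ m := Nat.cast_nonneg m
  have hd : (0 : ℝ) < (m : ℝ) ^ 2 + 3 * m + n := by positivity
  have hK : Kc n m = 2 * (n + 2 * m) * (m + 2) / (m ^ 2 + 3 * m + n) := by
    unfold Kc
    field_simp
    ring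
  rw [hK]
  unfold mu
  have h1 : (0 : ℝ) < n + 2 * m := by linarith
  field_simp
  ring

lemma mu_ge (hn : 3 ≤ n) (m : ℕ) : 1 / 4 ≤ mu n m := by
  have h3 : (3 : ℝ) ≤ n := by exact_mod_cast hn
  have hm : (0 : ℝ) ≤ m := Nat.cast_nonneg m
  unfold mu
  rw [div_le_div_iff₀ (by norm_num) (by positivity)]
  nlinarith [mul_nonneg hm (by linarith : (0 : ℝ) ≤ (n : ℝ) - 2)]

lemma mu_pos (hn : 3 ≤ n) (m : ℕ) : 0 < mu n m := by
  have := mu_ge hn m; linarith

lemma key_poly (hn : 3 ≤ n) (m j : ℕ) :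
    (2 * (n + 2 * ((j : ℝ) + 1) - 2) * (((j : ℝ) + 1) + 1) * mu n m
      - ((j : ℝ) + 1) * (((j : ℝ) + 1) + n - 1)) * ((n + 2 * m) * (m + 2))
      = (n - 2) * ((m - j) * (n - j * m)) := by
  have h3 : (3 : ℝ) ≤ n := by exact_mod_cast hn
  have hm : (0 : ℝ) ≤ m := Nat.cast_nonneg m
  unfold mu
  have h1 : (0 : ℝ) < n + 2 * m := by linarith
  have h2 : (0 : ℝ) < m + 2 := by linarith
  field_simp
  ring

lemma c3_nn (hn : 3 ≤ n) {m : ℕ} (hm1 : 1 ≤ m) (h1 : m * (m - 1) ≤ n) (h2 : n ≤ m * (m + 1))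
    (l : ℕ) : 0 ≤ c3 n (mu n m) l := by
  have h3 : (3 : ℝ) ≤ n := by exact_mod_cast hn
  have hm : (0 : ℝ) ≤ m := Nat.cast_nonneg m
  have hμ := mu_pos hn m
  have hl : (0 : ℝ) ≤ l := Nat.cast_nonneg l
  have hD := Dl_pos hn hl
  have hid := c3_nonneg hn hμ hl
  have hpos : 0 < Dl n l * mu n m := mul_pos hD hμ
  have hR : 0 ≤ 2 * (n + 2 * (l : ℝ) - 2) * (l + 1) * mu n m - l * (l + n - 1) := by
    obtain _ | j := l
    · push_cast
      have : (0 : ℝ) ≤ n + 2 * 0 - 2 := by linarith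
      have h5 : (0 : ℝ) ≤ 2 * (n + 2 * 0 - 2) * (0 + 1) * mu n m := by positivity
      linarith
    · have hk := key_poly hn m j
      have h4 : 0 ≤ ((m : ℝ) - j) * (n - j * m) := by
        rcases Nat.lt_or_ge j m with hj | hj
        · have e1 : (j : ℝ) + 1 ≤ m := by exact_mod_cast hj
          have e2 : (m : ℝ) * (m - 1) ≤ n := by
            have : ((m * (m - 1) : ℕ) : ℝ) ≤ n := by exact_mod_cast h1
            rw [Nat.cast_mul, Nat.cast_sub hm1, Nat.cast_one] at this
            exact this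
          refine mul_nonneg (by linarith) ?_
          nlinarith
        · have e1 : (m : ℝ) ≤ j := by exact_mod_cast hj
          rcases eq_or_lt_of_le hj with h | h
          · rw [h]; simp
          · have e1 : (m : ℝ) + 1 ≤ j := by exact_mod_cast h
            have e2 : (n : ℝ) ≤ m * (m + 1) := by exact_mod_cast h2
            refine mul_nonneg_of_nonpos_of_nonpos (by linarith) ?_
            nlinarith
      have h5 : (0 : ℝ) < (n + 2 * m) * (m + 2) := by positivity
      have h6 : 0 ≤ ((n : ℝ) - 2) * ((m - j) * (n - j * m)) := mul_nonneg (by linarith) h4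
      push_cast
      rw [← hk] at h6
      exact nonneg_of_mul_nonneg_left h6 h5
  have h7 : 0 ≤ c3 n (mu n m) l * (Dl n l * mu n m) := by
    rw [hid]; positivity
  exact nonneg_of_mul_nonneg_left h7 hpos

lemma c3_zero (hn : 3 ≤ n) (m : ℕ) : c3 n (mu n m) ((m : ℝ) + 1) = 0 := by
  have hm : (0 : ℝ) ≤ m := Nat.cast_nonneg m
  have h3 : (3 : ℝ) ≤ n := by exact_mod_cast hn
  have hμ := mu_pos hn m
  have hl : (0 : ℝ) ≤ (m : ℝ) + 1 := by positivity
  have hD := Dl_pos hn hl
  have hid := c3_nonneg hn hμ hl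
  have hk := key_poly hn m m
  rw [sub_self, zero_mul, mul_zero] at hk
  have h5 : (0 : ℝ) < (n + 2 * m) * (m + 2) := by positivity
  have h6 := (mul_eq_zero.mp hk).resolve_right h5.ne'
  rw [h6, mul_zero] at hid
  exact (mul_eq_zero.mp hid).resolve_right (mul_pos hD hμ).ne'

lemma pd_prod_notMem (i : Fin n) (S : Finset (Fin n)) (h : i ∉ S) :
    pderiv i (∏ j ∈ S, (X j : Pol n)) = 0 := by
  classical
  induction S using Finset.induction_on with
  | empty => simp
  | insert a S ha ih =>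
    have hne : a ≠ i := by
      rintro rfl
      exact h (Finset.mem_insert_self _ _)
    rw [Finset.prod_insert ha, pderiv_mul, ih (fun h' => h (Finset.mem_insert_of_mem h')),
      pderiv_X_of_ne hne]
    ring

lemma lap_prod (S : Finset (Fin n)) : lap (∏ j ∈ S, (X j : Pol n)) = 0 := by
  classical
  unfold lap
  refine Finset.sum_eq_zero fun i _ => ?_
  by_cases h : i ∈ S
  · rw [← Finset.mul_prod_erase S _ h, pderiv_mul, pderiv_X_self,
      pd_prod_notMem i _ (Finset.notMem_erase i S), mul_zero, add_zero, one_mul,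
      pd_prod_notMem i _ (Finset.notMem_erase i S)]
  · rw [pd_prod_notMem i S h, map_zero]

lemma exists_harm (l : ℕ) (hl : l ≤ n) :
    ∃ h : Pol n, h.IsHomogeneous l ∧ lap h = 0 ∧ h ≠ 0 := by
  obtain ⟨S, _, hS⟩ := Finset.exists_subset_card_eq
    (s := (Finset.univ : Finset (Fin n))) (n := l) (by simpa using hl)
  refine ⟨∏ j ∈ S, X j, ?_, lap_prod S, ?_⟩
  · have := IsHomogeneous.prod S (fun j => (X j : Pol n)) (fun _ => 1)
      (fun j _ => isHomogeneous_X ℝ j)
    simpa [hS] using this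
  · rw [Finset.prod_ne_zero_iff]
    intro j _
    exact X_ne_zero j

lemma lap_r2grad (q : Pol n) (l : ℕ) (hq : q.IsHomogeneous l) (hql : lap q = 0) (i : Fin n) :
    lap (r2 * pderiv i q) = C (2 * ((n : ℝ) + 2 * l - 2)) * pderiv i q := by
  rw [lap_r2_mul, lap_pd, hql, map_zero, mul_zero, add_zero]
  rcases Nat.eq_zero_or_pos l with hl0 | hl0
  · rw [pd_deg_zero q (hl0 ▸ hq) i]; simp
  · rw [euler (pderiv i q) (l - 1) hq.pderiv]
    have h3 : ((l - 1 : ℕ) : ℝ) = l - 1 := by
      rw [Nat.cast_sub hl0]; simp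
    rw [h3, ← mul_assoc, ← C_mul, ← add_mul, ← C_add]
    congr 2; ring

lemma div_r2grad (q : Pol n) (l : ℕ) (hq : q.IsHomogeneous l) (hql : lap q = 0) :
    ∑ i, pderiv i (r2 * pderiv i q) = C (2 * (l : ℝ)) * q := by
  simp only [pderiv_mul, pderiv_r2, Finset.sum_add_distrib, ← Finset.mul_sum]
  have h3 : ∑ i, pderiv i (pderiv i q) = 0 := hql
  have h4 : ∑ i : Fin n, (2 : Pol n) * X i * pderiv i q = 2 * ∑ i, X i * pderiv i q := by
    rw [Finset.mul_sum]; exact Finset.sum_congr rfl fun i _ => by ring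
  rw [h3, h4, euler q l hq, C_mul, C_ofNat2]; ring

lemma div_Xq (q : Pol n) (l : ℕ) (hq : q.IsHomogeneous l) :
    ∑ i, pderiv i (X i * q) = C ((n : ℝ) + l) * q := by
  simp only [pderiv_mul, pderiv_X_self, Finset.sum_add_distrib, one_mul]
  have hcn : (C (n : ℝ) : Pol n) = (n : Pol n) := map_natCast C n
  rw [euler q l hq, Finset.sum_const, Finset.card_univ, Fintype.card_fin, nsmul_eq_mul,
    C_add, hcn]
  ring

/-- the extremal field -/
lemma extremal [NeZero n] (hn : 3 ≤ n) (m : ℕ) (hmn : m + 1 ≤ n) :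
    ∃ v : Fld n, (∀ i j, LB (pderiv j (v i)) = LB (pderiv i (v j))) ∧ 0 < aa v v ∧
      Ph (mu n m) v v = 0 := by
  obtain ⟨h, hh, hhl, hh0⟩ := exists_harm (n := n) (m + 1) hmn
  set μ := mu n m with hμd
  have hμ : 0 < μ := mu_pos hn m
  set l : ℝ := ((m + 1 : ℕ) : ℝ) with hl
  have hl0 : 0 ≤ l := Nat.cast_nonneg _
  have hl1 : 1 ≤ l := by rw [hl]; push_cast; linarith [Nat.cast_nonneg (α := ℝ) m]
  have hn3 : (3 : ℝ) ≤ n := by exact_mod_cast hn
  have r1 := rel1 hn hμ hl0
  have r2' := rel2 hn hμ hl0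
  have r3 := rel3 hn hμ hl0
  have hc3 : c3 n μ l = 0 := by
    rw [hl]; push_cast; exact c3_zero hn m
  have hΛ : 0 < l * (n + 2 * l - 2) := by
    have : 0 < (n : ℝ) + 2 * l - 2 := by linarith
    positivity
  set a := al n μ l with ha
  set b := bl n μ l with hb
  set s := (a * (l * (n + 2 * l - 2)) + b * l) / (l * (n + 2 * l - 2)) with hs
  have hsΛ : s * (l * (n + 2 * l - 2)) = a * (l * (n + 2 * l - 2)) + b * l := by
    rw [hs, div_mul_cancel₀ _ hΛ.ne']
  obtain ⟨P, hP⟩ : ∃ P : Pol n, P = C (-s) * h := ⟨_, rfl⟩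
  have hPh : P.IsHomogeneous (m + 1) := by rw [hP]; exact hh.C_mul _
  have hPl : lap P = 0 := by rw [hP, lap_C_mul, hhl, mul_zero]
  have hbas : Bas (m + 1) (0 : Fld n) P h :=
    ⟨fun _ => isHomogeneous_zero _ _ _, fun _ => lap_zero, by unfold xd; simp, by unfold dv; simp,
      hPh, hPl, hh, hhl⟩
  set v : Fld n := HF n μ l 0 P h with hv
  have hvi : ∀ i, v i = pderiv i P + C a * (r2 * pderiv i h) + C b * (X i * h) := by
    intro i
    rw [hv]; unfold HF; simp [← ha, ← hb]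
  have hdv : dv v = h := by
    have e1 : dv v = lap P + C a * (∑ i, pderiv i (r2 * pderiv i h))
        + C b * ∑ i, pderiv i (X i * h) := by
      unfold dv lap
      simp only [hvi, map_add, pderiv_C_mul, Finset.sum_add_distrib, ← Finset.mul_sum]
    rw [e1, hPl, div_r2grad h (m + 1) hh hhl, div_Xq h (m + 1) hh, ← hl]
    have h4 := congrArg (C : ℝ → Pol n) r1
    simp only [C_add, C_mul, C_1] at h4 ⊢
    linear_combination h * h4
  have hLL : LL μ v = 0 := by
    ext1 i
    unfold LL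
    rw [hdv]
    have e1 : lap (v i) = pderiv i (lap P) + C a * lap (r2 * pderiv i h) + C b * lap (X i * h) := by
      rw [hvi, lap_add, lap_add, lap_C_mul, lap_C_mul, lap_pd]
    rw [e1, hPl, map_zero, lap_r2grad h (m + 1) hh hhl, lap_X_mul, hhl, ← hl]
    have h6 := congrArg (C : ℝ → Pol n) r2'
    rw [show -(1 / 2 : ℝ) = 0 - 1 / 2 by ring, C_sub, C_0] at h6
    simp only [C_add, C_mul, Pi.zero_apply] at h6 ⊢
    linear_combination pderiv i h * h6
  have hA : ∀ i, SE (v i) (Afld n μ (m + 1) 0 P h i) := by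
    intro i
    have e1 : Afld n μ (m + 1) 0 P h i = pderiv i P + C a * pderiv i h + C b * (X i * h) := by
      unfold Afld FF
      rw [map_add, pderiv_C_mul, Pi.zero_apply, ← hl, ← ha, ← hb]
      ring
    rw [hvi, e1]
    exact ((SE.refl _).add ((SE.r2 _).C_mul _)).add (SE.refl _)
  have hB : ∀ i, SE (BB μ v i) (Bfld n μ (m + 1) 0 P h i) := by
    intro i
    have e0 := BB_HF (n := n) μ 0 P h m (m + 1) (fun _ => isHomogeneous_zero _ _ _)
      (by unfold xd; simp) hPh hh i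
    have e1 : Bfld n μ (m + 1) 0 P h i = C (m * (μ + 1 / 2)) * pderiv i P
        + C (c2 n μ ((m + 1 : ℕ) : ℝ)) * pderiv i h + C (c3 n μ ((m + 1 : ℕ) : ℝ)) * (X i * h) := by
      unfold Bfld FF
      have : c1 μ ((m + 1 : ℕ) : ℝ) = m * (μ + 1 / 2) := by
        unfold c1; push_cast; ring
      rw [map_add, pderiv_C_mul, pderiv_C_mul, this]
      simp only [Pi.zero_apply, mul_zero, zero_add]
      ring
    rw [hv, hl, e0, e1, Pi.zero_apply, mul_zero, zero_add]
    exact ((SE.refl _).add ((SE.r2 _).C_mul _)).add (SE.refl _)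
  refine ⟨v, ?_, ?_, ?_⟩
  · -- side condition
    intro i j
    rw [LB_pderiv, LB_pderiv]
    have e1 : ∀ i j, LS (X j * v i) = LS (X j * pderiv i (P + C a * h)) + b * LS (X j * X i * h) := by
      intro i j
      rw [mul_comm (X j) (v i), hA i (X j)]
      have e2 : Afld n μ (m + 1) 0 P h i * X j
          = X j * pderiv i (P + C a * h) + C b * (X j * X i * h) := by
        unfold Afld FF
        rw [Pi.zero_apply, ← hl, ← ha, ← hb]
        ring
      rw [e2, map_add, LS_C_mul]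
    have hf : (P + C a * h).IsHomogeneous (m + 1) := hPh.add (hh.C_mul _)
    have e3 : ∀ i j : Fin n, ((n : ℝ) + m - 1) * LS (X j * pderiv i (P + C a * h))
        = LS (pderiv j (pderiv i (P + C a * h))) := by
      intro i j
      exact (LS_pderiv_hom _ m hf.pderiv j).symm
    have e4 : LS (X j * pderiv i (P + C a * h)) = LS (X i * pderiv j (P + C a * h)) := by
      have h5 : ((n : ℝ) + m - 1) ≠ 0 := by
        have := Nat.cast_nonneg (α := ℝ) m
        linarith
      apply mul_left_cancel₀ h5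
      rw [e3, e3, pd_comm]
    rw [e1, e1, e4, mul_comm (X j) (X i)]
  · refine lt_of_le_of_ne (aa_nonneg v) fun h0 => ?_
    have e1 := aa_eq_zero v h0.symm
    apply hh0
    rw [← hdv]
    unfold dv
    exact Finset.sum_eq_zero fun i _ => e1 i i
  · rw [green, hLL]
    have e3 : LB (dt v (0 : Fld n)) = 0 := by
      unfold dt; simp
    rw [e3, sub_zero, LS_dt_congr hA hB]
    have e4 := diag_eq hbas μ
    have e5 : Afld n μ (m + 1) 0 P h = Afld n μ (m + 1) 0 P h := rfl
    rw [e4, ← hl, hc3]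
    rw [hc3] at r3
    have e6 : LS (P * P) = s * s * LS (h * h) := by
      rw [hP]
      have : C (-s) * h * (C (-s) * h) = C (s * s) * (h * h) := by
        rw [show s * s = (-s) * (-s) by ring, C_mul]; ring
      rw [this, LS_C_mul]
    have e7 : LS (P * h) = - s * LS (h * h) := by
      rw [hP, mul_assoc, LS_C_mul]
    have e8 : LS (dt (0 : Fld n) (0 : Fld n)) = 0 := by
      unfold dt; simp
    rw [e6, e7, e8, ← ha, ← hb, r3, ← hsΛ]
    have e9 : c2 n μ l = c1 μ l * s := by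
      have h1 : c2 n μ l * (l * (n + 2 * l - 2)) = c1 μ l * s * (l * (n + 2 * l - 2)) := by
        rw [mul_assoc (c1 μ l), hsΛ]; linarith
      exact mul_right_cancel₀ hΛ.ne' h1
    rw [e9]
    have e10 : b * l = (s - a) * (l * (n + 2 * l - 2)) := by linarith
    linear_combination (c1 μ l * s * LS (h * h)) * e10

end Q187.Korn
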