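import Pool.Agent.Q187.Korn.Diag

/-!
# Nonnegativity: assembling the components
-/

open MeasureTheory Set Metric MvPolynomial Filter Topology

namespace Q187.Korn

variable {n : ℕ}

/-- equality on the sphere -/
def SE (p q : Pol n) : Prop := ∀ g, LS (p * g) = LS (q * g)

lemma SE.add {p q p' q' : Pol n} (h : SE p q) (h' : SE p' q') : SE (p + p') (q + q') := by
  intro g
  rw [add_mul, add_mul, map_add, map_add, h g, h' g]

lemma SE.sum {ι : Type*} (s : Finset ι) {p q : ι → Pol n} (h : ∀ i ∈ s, SE (p i) (q i)) :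
    SE (∑ i ∈ s, p i) (∑ i ∈ s, q i) := by
  intro g
  rw [Finset.sum_mul, Finset.sum_mul, map_sum, map_sum]
  exact Finset.sum_congr rfl fun i hi => h i hi g

lemma SE.refl (p : Pol n) : SE p p := fun _ => rfl

lemma SE.trans {p q r : Pol n} (h : SE p q) (h' : SE q r) : SE p r :=
  fun g => (h g).trans (h' g)

lemma SE.r2 (p : Pol n) : SE (r2 * p) p := by
  intro g
  rw [mul_assoc, LS_r2_mul]

lemma SE.C_mul {p q : Pol n} (a : ℝ) (h : SE p q) : SE (C a * p) (C a * q) := by
  intro g
  rw [mul_assoc, mul_assoc, LS_C_mul, LS_C_mul, h g]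

lemma LS_dt_congr {u w u' w' : Fld n} (h : ∀ i, SE (u i) (u' i)) (h' : ∀ i, SE (w i) (w' i)) :
    LS (dt u w) = LS (dt u' w') := by
  unfold dt
  rw [map_sum, map_sum]
  refine Finset.sum_congr rfl fun i _ => ?_
  rw [h i (w i), mul_comm (u' i) (w i), h' i (u' i), mul_comm]

/-- shift -/
noncomputable def sh (p : ℕ → Pol n) : ℕ → Pol n
  | 0 => 0
  | l + 1 => p l

lemma regroup (N : ℕ) (t u w : ℕ → Pol n) (hu : u (N + 1) = 0) (hw0 : w 0 = 0)
    (hw : w (N + 2) = 0) :
    ∑ k ∈ Finset.range (N + 2), (t k + u k + w k)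
      = ∑ l ∈ Finset.range (N + 2), (t l + sh u l + w (l + 1)) := by
  simp only [Finset.sum_add_distrib]
  have h1 : ∑ k ∈ Finset.range (N + 2), u k = ∑ l ∈ Finset.range (N + 2), sh u l := by
    rw [Finset.sum_range_succ, hu, add_zero, Finset.sum_range_succ' (sh u)]
    simp [sh]
  have h2 : ∑ k ∈ Finset.range (N + 2), w k = ∑ l ∈ Finset.range (N + 2), w (l + 1) := by
    rw [Finset.sum_range_succ', hw0, add_zero, Finset.sum_range_succ (fun l => w (l + 1)) (N + 1),
      hw, add_zero]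
  rw [h1, h2]

/-- the family of components of a solution -/
structure Comp (μ : ℝ) (v : Fld n) (N : ℕ) (T : ℕ → Fld n) (P Q : ℕ → Pol n) : Prop where
  bas : ∀ l, Bas l (T l) (P l) (Q l)
  hv : ∀ i, SE (v i) (∑ l ∈ Finset.range (N + 2), Afld n μ l (T l) (P l) (Q l) i)
  hB : ∀ i, SE (BB μ v i) (∑ l ∈ Finset.range (N + 2), Bfld n μ l (T l) (P l) (Q l) i)

lemma BB_sum {ι : Type*} (μ : ℝ) (s : Finset ι) (w : ι → Fld n) (i : Fin n) :
    BB μ (fun j => ∑ k ∈ s, w k j) i = ∑ k ∈ s, BB μ (w k) i := by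
  classical
  induction s using Finset.induction_on with
  | empty => unfold BB; simp
  | insert a s ha ih =>
    rw [Finset.sum_insert ha, ← ih]
    have : (fun j => ∑ k ∈ insert a s, w k j) = w a + fun j => ∑ k ∈ s, w k j := by
      ext1 j; simp [Finset.sum_insert ha]
    rw [this, BB_add]; rfl

theorem exists_comp (hn : 3 ≤ n) {μ : ℝ} (hμ : 0 < μ) (v : Fld n) (hL : LL μ v = 0) :
    ∃ (N : ℕ) (T : ℕ → Fld n) (P Q : ℕ → Pol n), Comp μ v N T P Q := by
  obtain ⟨N, hN⟩ : ∃ N, ∀ i, (v i).totalDegree ≤ N :=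
    ⟨∑ i, (v i).totalDegree, fun i => Finset.single_le_sum
      (f := fun i => (v i).totalDegree) (fun _ _ => Nat.zero_le _) (Finset.mem_univ i)⟩
  have hvk : ∀ k i, (vk v k i).IsHomogeneous k := fun k i =>
    homogeneousComponent_isHomogeneous _ _
  choose T p hTh hTl hTx hTd hph hpl hqh hql hvT hp0 using fun k =>
    decomp' hn hμ (vk v k) k (hvk k) (LL_vk v hL k)
  have hz : ∀ k, N < k → vk v k = 0 := by
    intro k hk
    ext1 i
    exact homogeneousComponent_eq_zero _ _ ((hN i).trans_lt hk)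
  have hdz : ∀ k, N < k → dv (vk v k) = 0 := by
    intro k hk
    rw [hz k hk]; unfold dv; simp
  have hd0 : dv (vk v 0) = 0 := by
    unfold dv
    exact Finset.sum_eq_zero fun i _ => pd_deg_zero _ (hvk 0 i) i
  have hvs : v = fun i => ∑ k ∈ Finset.range (N + 2), vk v k i := by
    ext1 i
    have h1 := sum_homogeneousComponent (v i)
    have h2 : Finset.range ((v i).totalDegree + 1) ⊆ Finset.range (N + 2) := by
      intro k hk
      rw [Finset.mem_range] at hk ⊢
      have := hN i
      omega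
    rw [← Finset.sum_subset h2]
    · exact h1.symm
    · intro k _ hk
      rw [Finset.mem_range, not_lt] at hk
      exact homogeneousComponent_eq_zero _ _ (by omega)
  refine ⟨N, T, sh p, fun l => dv (vk v (l + 1)), ?_, ?_, ?_⟩
  · intro l
    refine ⟨hTh l, hTl l, hTx l, hTd l, ?_, ?_, ?_, ?_⟩
    · cases l with
      | zero => exact isHomogeneous_zero _ _ _
      | succ l => exact hph l
    · cases l with
      | zero => exact lap_zero
      | succ l => exact hpl l
    · exact hqh (l + 1)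
    · exact hql (l + 1)
  · intro i
    have h1 : v i = ∑ k ∈ Finset.range (N + 2), vk v k i := congrFun hvs i
    rw [h1]
    have h2 : SE (∑ k ∈ Finset.range (N + 2), vk v k i)
        (∑ k ∈ Finset.range (N + 2), (T k i + pderiv i (p k)
          + (C (al n μ ((k - 1 : ℕ) : ℝ)) * pderiv i (dv (vk v k))
            + C (bl n μ ((k - 1 : ℕ) : ℝ)) * (X i * dv (vk v k))))) := by
      refine SE.sum _ fun k _ => ?_
      have h3 : vk v k i = T k i + pderiv i (p k)
          + (C (al n μ ((k - 1 : ℕ) : ℝ)) * (r2 * pderiv i (dv (vk v k)))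
            + C (bl n μ ((k - 1 : ℕ) : ℝ)) * (X i * dv (vk v k))) := by
        conv_lhs => rw [hvT k]
        unfold HF; ring
      rw [h3]
      exact (SE.refl _).add (((SE.r2 _).C_mul _).add (SE.refl _))
    refine h2.trans ?_
    rw [regroup N (fun k => T k i) (fun k => pderiv i (p k))
      (fun k => C (al n μ ((k - 1 : ℕ) : ℝ)) * pderiv i (dv (vk v k))
            + C (bl n μ ((k - 1 : ℕ) : ℝ)) * (X i * dv (vk v k)))]
    · refine SE.sum _ fun l _ => ?_
      have h3 : T l i + sh (fun k => pderiv i (p k)) l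
          + (C (al n μ ((l + 1 - 1 : ℕ) : ℝ)) * pderiv i (dv (vk v (l + 1)))
            + C (bl n μ ((l + 1 - 1 : ℕ) : ℝ)) * (X i * dv (vk v (l + 1))))
          = Afld n μ l (T l) (sh p l) (dv (vk v (l + 1))) i := by
        unfold Afld FF
        rw [map_add, pderiv_C_mul]
        have h4 : sh (fun k => pderiv i (p k)) l = pderiv i (sh p l) := by
          cases l <;> simp [sh]
        rw [h4, Nat.add_sub_cancel]
        ring
      rw [h3]
      exact SE.refl _
    · simp only [hp0 (N + 1) (hz _ (by omega)), map_zero]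
    · simp only [hd0, map_zero, mul_zero, add_zero]
    · simp only [hdz (N + 2) (by omega), map_zero, mul_zero, add_zero]
  · intro i
    have h1 : BB μ v i = ∑ k ∈ Finset.range (N + 2), BB μ (vk v k) i := by
      conv_lhs => rw [hvs]
      exact BB_sum μ _ _ i
    rw [h1]
    have h2 : SE (∑ k ∈ Finset.range (N + 2), BB μ (vk v k) i)
        (∑ k ∈ Finset.range (N + 2), (C (μ * k - 1 / 2) * T k i
          + C (k * (μ + 1 / 2)) * pderiv i (p k)
          + (C (c2 n μ ((k - 1 : ℕ) : ℝ)) * pderiv i (dv (vk v k))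
            + C (c3 n μ ((k - 1 : ℕ) : ℝ)) * (X i * dv (vk v k))))) := by
      refine SE.sum _ fun k _ => ?_
      have h3 : BB μ (vk v k) i = C (μ * k - 1 / 2) * T k i
          + C (k * (μ + 1 / 2)) * pderiv i (p k)
          + (C (c2 n μ ((k - 1 : ℕ) : ℝ)) * (r2 * pderiv i (dv (vk v k)))
            + C (c3 n μ ((k - 1 : ℕ) : ℝ)) * (X i * dv (vk v k))) := by
        conv_lhs => rw [hvT k]
        rw [BB_HF μ (T k) (p k) (dv (vk v k)) k (k - 1) (hTh k) (hTx k) (hph k) (hqh k) i]
        ring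
      rw [h3]
      exact (SE.refl _).add (((SE.r2 _).C_mul _).add (SE.refl _))
    refine h2.trans ?_
    rw [regroup N (fun k => C (μ * k - 1 / 2) * T k i)
      (fun k => C (k * (μ + 1 / 2)) * pderiv i (p k))
      (fun k => C (c2 n μ ((k - 1 : ℕ) : ℝ)) * pderiv i (dv (vk v k))
            + C (c3 n μ ((k - 1 : ℕ) : ℝ)) * (X i * dv (vk v k)))]
    · refine SE.sum _ fun l _ => ?_
      have h3 : C (μ * l - 1 / 2) * T l i
          + sh (fun k : ℕ => C ((k : ℝ) * (μ + 1 / 2)) * pderiv i (p k)) l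
          + (C (c2 n μ ((l + 1 - 1 : ℕ) : ℝ)) * pderiv i (dv (vk v (l + 1)))
            + C (c3 n μ ((l + 1 - 1 : ℕ) : ℝ)) * (X i * dv (vk v (l + 1))))
          = Bfld n μ l (T l) (sh p l) (dv (vk v (l + 1))) i := by
        unfold Bfld FF
        rw [map_add, pderiv_C_mul, pderiv_C_mul]
        have h4 : sh (fun k : ℕ => C ((k : ℝ) * (μ + 1 / 2)) * pderiv i (p k)) l
            = C (c1 μ l) * pderiv i (sh p l) := by
          cases l with
          | zero => simp [sh]
          | succ l =>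
            simp only [sh, c1]
            push_cast
            rw [add_sub_cancel_right]
        rw [h4, Nat.add_sub_cancel]
        ring
      rw [h3]
      exact SE.refl _
    · simp only [hp0 (N + 1) (hz _ (by omega)), map_zero, mul_zero]
    · simp only [hd0, map_zero, mul_zero, add_zero]
    · simp only [hdz (N + 2) (by omega), map_zero, mul_zero, add_zero]

/-- orthogonal expansion of the quadratic form -/
lemma expand [NeZero n] (hn : 3 ≤ n) {μ : ℝ} {v : Fld n} {N : ℕ} {T : ℕ → Fld n}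
    {P Q : ℕ → Pol n} (h : Comp μ v N T P Q) :
    LS (dt v (BB μ v)) = ∑ l ∈ Finset.range (N + 2),
      LS (dt (Afld n μ l (T l) (P l) (Q l)) (Bfld n μ l (T l) (P l) (Q l))) := by
  rw [LS_dt_congr h.hv h.hB]
  have h1 : dt (fun i => ∑ l ∈ Finset.range (N + 2), Afld n μ l (T l) (P l) (Q l) i)
      (fun i => ∑ l ∈ Finset.range (N + 2), Bfld n μ l (T l) (P l) (Q l) i)
      = ∑ l ∈ Finset.range (N + 2), ∑ j ∈ Finset.range (N + 2),
        dt (Afld n μ l (T l) (P l) (Q l)) (Bfld n μ j (T j) (P j) (Q j)) := by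
    unfold dt
    simp only [Finset.sum_mul_sum]
    rw [Finset.sum_comm]
    refine Finset.sum_congr rfl fun l _ => ?_
    rw [Finset.sum_comm]
  rw [h1, map_sum]
  refine Finset.sum_congr rfl fun l hl => ?_
  rw [map_sum, Finset.sum_eq_single l]
  · intro j _ hj
    exact FF_orth hn ((h.bas l).typA μ) ((h.bas j).typB μ) (Ne.symm hj)
  · intro h; exact absurd hl h

lemma T_zero {T : Fld n} (hTh : ∀ i, (T i).IsHomogeneous 0) (hTx : xd T = 0) (i : Fin n) :
    T i = 0 := by
  have h1 := pd_xd T i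
  rw [hTx, map_zero] at h1
  have h2 : ∑ j, X j * pderiv i (T j) = 0 :=
    Finset.sum_eq_zero fun j _ => by rw [pd_deg_zero _ (hTh j), mul_zero]
  rw [h2, add_zero] at h1
  exact h1.symm

lemma T_one [NeZero n] (hn : 3 ≤ n) {μ : ℝ} {v : Fld n} {N : ℕ} {T : ℕ → Fld n}
    {P Q : ℕ → Pol n} (h : Comp μ v N T P Q)
    (hside : ∀ i j, LS (X j * v i) = LS (X i * v j)) : LS (dt (T 1) (T 1)) = 0 := by
  have hT := (h.bas 1).Th
  have hx := (h.bas 1).Tx
  -- the matrix
  have hc : ∀ i j, ∃ a : ℝ, pderiv j (T 1 i) = C a := by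
    intro i j
    have h1 : (pderiv j (T 1 i)).IsHomogeneous 0 := (hT i).pderiv
    rw [← totalDegree_zero_iff_isHomogeneous, totalDegree_eq_zero_iff_eq_C] at h1
    exact ⟨_, h1⟩
  choose a ha using hc
  have hskew : ∀ i j, a i j = - a j i := by
    intro i j
    have h1 := congrArg (pderiv j) (pd_xd (T 1) i)
    rw [hx, map_zero, map_zero, map_add, map_sum] at h1
    simp only [pderiv_mul, Finset.sum_add_distrib] at h1
    rw [sum_delta' j (fun k => pderiv i (T 1 k))] at h1
    have h2 : ∑ k, X k * pderiv j (pderiv i (T 1 k)) = 0 :=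
      Finset.sum_eq_zero fun k _ => by rw [pd_deg_one _ 1 le_rfl (hT k), mul_zero]
    rw [h2, add_zero, ha, ha, ← C_add] at h1
    have h3 : a i j + a j i = 0 := by
      rw [← C_eq_zero (σ := Fin n)]; exact h1.symm
    linarith
  -- first evaluation
  have e1 : LS (dt v (T 1)) = 0 := by
    have h1 : dt v (T 1) = ∑ i, ∑ j, C (a i j) * (X j * v i) := by
      unfold dt
      refine Finset.sum_congr rfl fun i _ => ?_
      have h2 := euler (T 1 i) 1 (hT i)
      rw [Nat.cast_one, C_1, one_mul] at h2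
      rw [← h2, Finset.mul_sum]
      refine Finset.sum_congr rfl fun j _ => ?_
      rw [ha]; ring
    rw [h1]
    simp only [map_sum, LS_C_mul]
    have h2 : ∑ i, ∑ j, a i j * LS (X j * v i) = - ∑ i, ∑ j, a i j * LS (X j * v i) := by
      conv_lhs => rw [Finset.sum_comm]
      rw [← Finset.sum_neg_distrib]
      refine Finset.sum_congr rfl fun i _ => ?_
      rw [← Finset.sum_neg_distrib]
      refine Finset.sum_congr rfl fun j _ => ?_
      rw [hside j i, hskew j i]; ring
    linarith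
  -- second evaluation
  have e2 : LS (dt v (T 1)) = LS (dt (T 1) (T 1)) := by
    rw [LS_dt_congr h.hv (fun i => SE.refl (T 1 i))]
    have h1 : dt (fun i => ∑ l ∈ Finset.range (N + 2), Afld n μ l (T l) (P l) (Q l) i) (T 1)
        = ∑ l ∈ Finset.range (N + 2), dt (Afld n μ l (T l) (P l) (Q l)) (FF (T 1) 0 0) := by
      unfold dt
      simp only [Finset.sum_mul]
      rw [Finset.sum_comm]
      refine Finset.sum_congr rfl fun l _ => Finset.sum_congr rfl fun i _ => ?_
      simp [FF]
    have hty : Typ 1 (T 1) 0 0 :=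
      ⟨hT, (h.bas 1).Tl, hx, (h.bas 1).Td, isHomogeneous_zero _ _ _, lap_zero,
        isHomogeneous_zero _ _ _, lap_zero⟩
    rw [h1, map_sum, Finset.sum_eq_single 1]
    · unfold Afld
      rw [FF_pair ((h.bas 1).typA μ) hty]
      simp
    · intro l _ hl
      exact FF_orth hn ((h.bas l).typA μ) hty hl
    · intro h; exact absurd (Finset.mem_range.mpr (by omega)) h
  rw [← e2, e1]

/-- nonnegativity for solutions of the Navier system -/
theorem nonneg_of_LL [NeZero n] (hn : 3 ≤ n) {μ : ℝ} (hμ : 1 / 4 ≤ μ)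
    (hc3 : ∀ l : ℕ, 0 ≤ c3 n μ l) (v : Fld n) (hL : LL μ v = 0)
    (hside : ∀ i j, LS (X j * v i) = LS (X i * v j)) : 0 ≤ Ph μ v v := by
  have hμ0 : 0 < μ := by linarith
  obtain ⟨N, T, P, Q, h⟩ := exists_comp hn hμ0 v hL
  rw [green, hL]
  have h3 : LB (dt v (0 : Fld n)) = 0 := by
    unfold dt; simp
  rw [h3, sub_zero, expand hn h]
  refine Finset.sum_nonneg fun l _ => diag_nonneg hn (h.bas l) hμ0 (hc3 l) ?_
  rcases Nat.lt_or_ge l 2 with hl | hl
  · have h4 : LS (dt (T l) (T l)) = 0 := by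
      interval_cases l
      · have h5 := T_zero (h.bas 0).Th (h.bas 0).Tx
        unfold dt
        simp [h5]
      · exact T_one hn h hside
    rw [h4, mul_zero]
  · have hl2 : (2 : ℝ) ≤ l := by exact_mod_cast hl
    refine mul_nonneg (by nlinarith) ?_
    unfold dt
    rw [map_sum]
    exact Finset.sum_nonneg fun i _ => LS_sq_nonneg _

/-- nonnegativity for all polynomial fields -/
theorem nonneg_poly [NeZero n] (hn : 3 ≤ n) {μ : ℝ} (hμ : 1 / 4 ≤ μ)
    (hc3 : ∀ l : ℕ, 0 ≤ c3 n μ l) (u : Fld n)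
    (hside : ∀ i j, LB (pderiv j (u i)) = LB (pderiv i (u j))) : 0 ≤ Ph μ u u := by
  have hμ0 : 0 < μ := by linarith
  obtain ⟨v, w, rfl, hL, hle⟩ := reduction hμ0 u
  refine le_trans (nonneg_of_LL hn hμ hc3 v hL fun i j => ?_) hle
  have h1 := hside i j
  rw [LB_pderiv, LB_pderiv] at h1
  simp only [Pi.add_apply, mul_add, map_add] at h1
  have h2 : ∀ i j : Fin n, LS (X j * bz w i) = 0 := by
    intro i j
    rw [mul_comm, LS_bz]
  rw [h2, h2] at h1
  linarith

end Q187.Korn
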