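import Pool.Agent.Q187.Korn.Total
import Pool.Agent.Q187.Korn.Approx

/-!
# The inequality for smooth fields
-/

open MeasureTheory Set Metric MvPolynomial Filter Topology
open scoped ContDiff

namespace Q187.Korn

variable {n : ℕ}

/-- the quadratic form of a matrix -/
noncomputable def phi (μ : ℝ) (M : Fin n → Fin n → ℝ) : ℝ :=
  μ * ∑ i, ∑ j, M i j * M i j + 1 / 2 * ∑ i, ∑ j, M i j * M j i

lemma continuous_phi (μ : ℝ) : Continuous (phi μ : (Fin n → Fin n → ℝ) → ℝ) := by
  unfold phi
  fun_prop

/-- gradient matrix of a polynomial field -/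
noncomputable def gm (U : Fld n) (x : E n) : Fin n → Fin n → ℝ := fun i j => ev (pderiv j (U i)) x

lemma Ph_eq (μ : ℝ) (U : Fld n) : Ph μ U U = ∫ x in ball (0 : E n) 1, phi μ (gm U x) := by
  have h1 : ∀ x, phi μ (gm U x) = ev (C μ * (∑ i, ∑ j, pderiv j (U i) * pderiv j (U i))
      + C (1 / 2) * (∑ i, ∑ j, pderiv j (U i) * pderiv i (U j))) x := by
    intro x
    unfold phi gm
    simp only [ev_add, ev_mul, ev_C, ev_sum]
  simp only [h1]
  have h2 : ∀ p : Pol n, ∫ x in ball (0 : E n) 1, ev p x = LB p := fun p => rfl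
  rw [h2, map_add, LB_C_mul, LB_C_mul]
  unfold Ph aa tt
  simp only [map_sum]

lemma vol_pos [NeZero n] : 0 < LB (1 : Pol n) := by
  have h1 := LB_hom (1 : Pol n) 0 (isHomogeneous_one _ _)
  have h2 := LS_one_pos (n := n)
  have hn : (1 : ℝ) ≤ n := by exact_mod_cast Nat.pos_of_ne_zero (NeZero.ne n)
  rw [← h1] at h2
  push_cast at h2
  by_contra h
  push Not at h
  nlinarith

lemma LB_C (c : ℝ) : LB (C c : Pol n) = c * LB (1 : Pol n) := by
  rw [← mul_one (C c : Pol n), LB_C_mul]

/-- correction -/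
lemma phi_corrected [NeZero n] (hn : 3 ≤ n) {μ : ℝ} (hμ : 1 / 4 ≤ μ)
    (hc3 : ∀ l : ℕ, 0 ≤ c3 n μ l) (U : Fld n) :
    0 ≤ ∫ x in ball (0 : E n) 1, phi μ (fun i j => gm U x i j
      - (LB (pderiv j (U i)) - LB (pderiv i (U j))) / (2 * LB (1 : Pol n))) := by
  set W : Fin n → Fin n → ℝ := fun i j =>
    (LB (pderiv j (U i)) - LB (pderiv i (U j))) / (2 * LB (1 : Pol n)) with hW
  set U' : Fld n := fun i => U i - ∑ m, C (W i m) * X m with hU'
  have hd : ∀ i j, pderiv j (U' i) = pderiv j (U i) - C (W i j) := by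
    intro i j
    simp only [hU', map_sub, map_sum, pderiv_C_mul]
    congr 1
    rw [Finset.sum_eq_single j]
    · rw [pderiv_X_self, mul_one]
    · intro b _ hb
      rw [pderiv_X_of_ne hb, mul_zero]
    · intro h; exact absurd (Finset.mem_univ j) h
  have hV := vol_pos (n := n)
  have h1 := nonneg_poly hn hμ hc3 U' (fun i j => by
    rw [hd, hd, map_sub, map_sub, LB_C, LB_C]
    simp only [hW]
    field_simp
    ring)
  rw [Ph_eq] at h1
  have h2 : ∀ x, gm U' x = fun i j => gm U x i j - W i j := by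
    intro x
    ext i j
    unfold gm
    rw [hd, ev_sub, ev_C]
  simpa only [h2] using h1

/-- the fundamental inequality for fields smooth on the closed ball -/
theorem phi_nonneg [NeZero n] (hn : 3 ≤ n) {μ : ℝ} (hμ : 1 / 4 ≤ μ)
    (hc3 : ∀ l : ℕ, 0 ≤ c3 n μ l) {u : E n → E n} (hu : ContDiffOn ℝ ∞ u (closedBall 0 1))
    (hside : ∀ i j, ∫ x in ball (0 : E n) 1, (grad u x i j - grad u x j i) = 0) :
    0 ≤ ∫ x in ball (0 : E n) 1, phi μ (grad u x) := by
  obtain ⟨U, C0, hUb, hUt⟩ := approx hu
  have hV := vol_pos (n := n)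
  have hfin : (volume : Measure (E n)) (ball (0 : E n) 1) ≠ ⊤ := measure_ball_lt_top.ne
  have : IsFiniteMeasure ((volume : Measure (E n)).restrict (ball (0 : E n) 1)) :=
    isFiniteMeasure_restrict.mpr hfin
  -- convergence of the corrections
  have hWt : ∀ i j, Tendsto (fun k => (LB (pderiv j (U k i)) - LB (pderiv i (U k j)))
      / (2 * LB (1 : Pol n))) atTop (𝓝 0) := by
    intro i j
    have h1 : Tendsto (fun k => ∫ x in ball (0 : E n) 1, ev (pderiv j (U k i) - pderiv i (U k j)) x)
        atTop (𝓝 (∫ x in ball (0 : E n) 1, (grad u x i j - grad u x j i))) := by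
      refine tendsto_integral_of_dominated_convergence (fun _ => 2 * C0) ?_ ?_ ?_ ?_
      · intro k; exact (continuous_ev _).aestronglyMeasurable
      · exact integrable_const _
      · intro k
        refine (ae_restrict_iff' measurableSet_ball).mpr (Eventually.of_forall fun x hx => ?_)
        rw [ev_sub, Real.norm_eq_abs]
        have := hUb k i j x hx
        have := hUb k j i x hx
        calc |ev (pderiv j (U k i)) x - ev (pderiv i (U k j)) x|
            ≤ |ev (pderiv j (U k i)) x| + |ev (pderiv i (U k j)) x| := abs_sub _ _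
          _ ≤ 2 * C0 := by linarith
      · refine (ae_restrict_iff' measurableSet_ball).mpr (Eventually.of_forall fun x hx => ?_)
        simp only [ev_sub]
        exact (hUt i j x hx).sub (hUt j i x hx)
    rw [hside i j] at h1
    have h2 : ∀ k, ∫ x in ball (0 : E n) 1, ev (pderiv j (U k i) - pderiv i (U k j)) x
        = LB (pderiv j (U k i)) - LB (pderiv i (U k j)) := by
      intro k
      rw [← map_sub]; rfl
    simp only [h2] at h1
    simpa using h1.div_const (2 * LB (1 : Pol n))
  -- bound of the corrections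
  have hLBb : ∀ k i j, |LB (pderiv j (U k i))| ≤ C0 * LB (1 : Pol n) := by
    intro k i j
    have h1 : LB (pderiv j (U k i)) = ∫ x in ball (0 : E n) 1, ev (pderiv j (U k i)) x := rfl
    have h2 : LB (1 : Pol n) = (volume : Measure (E n)).real (ball (0 : E n) 1) := by
      rw [LB_apply]; unfold IB; simp
    rw [h1, h2, ← Real.norm_eq_abs]
    exact norm_setIntegral_le_of_norm_le_const hfin.lt_top
      (fun x hx => by rw [Real.norm_eq_abs]; exact hUb k i j x hx)
  have hWb : ∀ k i j, |(LB (pderiv j (U k i)) - LB (pderiv i (U k j)))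
      / (2 * LB (1 : Pol n))| ≤ C0 := by
    intro k i j
    rw [abs_div, abs_of_pos (by positivity : 0 < 2 * LB (1 : Pol n)), div_le_iff₀ (by positivity)]
    have := hLBb k i j
    have := hLBb k j i
    calc |LB (pderiv j (U k i)) - LB (pderiv i (U k j))|
        ≤ |LB (pderiv j (U k i))| + |LB (pderiv i (U k j))| := abs_sub _ _
      _ ≤ C0 * (2 * LB (1 : Pol n)) := by linarith
  -- uniform bound
  obtain ⟨K, hK⟩ := (isCompact_closedBall (0 : Fin n → Fin n → ℝ) (2 * C0)).exists_bound_of_continuousOn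
    (continuous_phi (n := n) μ).continuousOn
  have hC0 : 0 ≤ C0 := by
    have hn0 : 0 < n := by omega
    exact (abs_nonneg _).trans (hWb 0 ⟨0, hn0⟩ ⟨0, hn0⟩)
  have hmem : ∀ k, ∀ x ∈ ball (0 : E n) 1, (fun i j => gm (U k) x i j
      - (LB (pderiv j (U k i)) - LB (pderiv i (U k j))) / (2 * LB (1 : Pol n)))
      ∈ closedBall (0 : Fin n → Fin n → ℝ) (2 * C0) := by
    intro k x hx
    rw [mem_closedBall_zero_iff, pi_norm_le_iff_of_nonneg (by positivity)]
    intro i
    rw [pi_norm_le_iff_of_nonneg (by positivity)]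
    intro j
    rw [Real.norm_eq_abs]
    have h1 := hUb k i j x hx
    have h2 := hWb k i j
    calc |gm (U k) x i j - (LB (pderiv j (U k i)) - LB (pderiv i (U k j))) / (2 * LB (1 : Pol n))|
        ≤ |gm (U k) x i j|
          + |(LB (pderiv j (U k i)) - LB (pderiv i (U k j))) / (2 * LB (1 : Pol n))| := abs_sub _ _
      _ ≤ 2 * C0 := by unfold gm; linarith
  have hlim : Tendsto (fun k => ∫ x in ball (0 : E n) 1, phi μ (fun i j => gm (U k) x i j
      - (LB (pderiv j (U k i)) - LB (pderiv i (U k j))) / (2 * LB (1 : Pol n)))) atTop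
      (𝓝 (∫ x in ball (0 : E n) 1, phi μ (grad u x))) := by
    refine tendsto_integral_of_dominated_convergence (fun _ => K) ?_ ?_ ?_ ?_
    · intro k
      have : Continuous (fun x : E n => phi μ (fun i j => gm (U k) x i j
          - (LB (pderiv j (U k i)) - LB (pderiv i (U k j))) / (2 * LB (1 : Pol n)))) := by
        refine (continuous_phi μ).comp ?_
        refine continuous_pi fun i => continuous_pi fun j => ?_
        exact (continuous_ev _).sub continuous_const
      exact this.aestronglyMeasurable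
    · exact integrable_const _
    · intro k
      refine (ae_restrict_iff' measurableSet_ball).mpr (Eventually.of_forall fun x hx => ?_)
      exact hK _ (hmem k x hx)
    · refine (ae_restrict_iff' measurableSet_ball).mpr (Eventually.of_forall fun x hx => ?_)
      refine ((continuous_phi μ).tendsto _).comp ?_
      rw [tendsto_pi_nhds]
      intro i
      rw [tendsto_pi_nhds]
      intro j
      have := (hUt i j x hx).sub (hWt i j)
      rw [sub_zero] at this
      exact this
  exact ge_of_tendsto' hlim fun k => phi_corrected hn hμ hc3 (U k)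

/-- the Korn inequality -/
theorem korn_upper [NeZero n] (hn : 3 ≤ n) {μ K : ℝ} (hμ : 1 / 4 ≤ μ) (hK : 0 < K)
    (hμK : μ = 1 / 2 - 1 / K)
    (hc3 : ∀ l : ℕ, 0 ≤ c3 n μ l) {u : E n → E n} (hu : ContDiffOn ℝ ∞ u (closedBall 0 1))
    (hside : ∀ i j, ∫ x in ball (0 : E n) 1, (grad u x i j - grad u x j i) = 0) :
    ∫ x in ball (0 : E n) 1, ∑ i, ∑ j, grad u x i j ^ 2
      ≤ K * ∫ x in ball (0 : E n) 1, ∑ i, ∑ j, ((grad u x i j + grad u x j i) / 2) ^ 2 := by
  have h := phi_nonneg hn hμ hc3 hu hside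
  obtain ⟨C0, hC0⟩ := grad_bound hu
  have hfin : (volume : Measure (E n)) (ball (0 : E n) 1) ≠ ⊤ := measure_ball_lt_top.ne
  have : IsFiniteMeasure ((volume : Measure (E n)).restrict (ball (0 : E n) 1)) :=
    isFiniteMeasure_restrict.mpr hfin
  -- integrability of continuous functions of the gradient
  have hint : ∀ F : (Fin n → Fin n → ℝ) → ℝ, Continuous F →
      IntegrableOn (fun x => F (grad u x)) (ball (0 : E n) 1) := by
    intro F hF
    obtain ⟨K, hK⟩ := (isCompact_closedBall (0 : Fin n → Fin n → ℝ)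
      (max C0 0)).exists_bound_of_continuousOn hF.continuousOn
    refine Integrable.of_bound (C := K) ?_ ?_
    · have : ContinuousOn (fun x => F (grad u x)) (ball (0 : E n) 1) := by
        refine hF.comp_continuousOn ?_
        refine continuousOn_pi.mpr fun i => continuousOn_pi.mpr fun j => grad_continuousOn hu i j
      exact this.aestronglyMeasurable measurableSet_ball
    · refine (ae_restrict_iff' measurableSet_ball).mpr (Eventually.of_forall fun x hx => ?_)
      refine hK _ ?_
      rw [mem_closedBall_zero_iff, pi_norm_le_iff_of_nonneg (le_max_right _ _)]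
      intro i
      rw [pi_norm_le_iff_of_nonneg (le_max_right _ _)]
      intro j
      rw [Real.norm_eq_abs]
      exact (hC0 x hx i j).trans (le_max_left _ _)
  have h1 := hint (fun M => ∑ i, ∑ j, M i j ^ 2) (by fun_prop)
  have h2 := hint (fun M => ∑ i, ∑ j, ((M i j + M j i) / 2) ^ 2) (by fun_prop)
  have hpt : ∀ M : Fin n → Fin n → ℝ, K * phi μ M
      = K * (∑ i, ∑ j, ((M i j + M j i) / 2) ^ 2) - ∑ i, ∑ j, M i j ^ 2 := by
    intro M
    have e1 : ∑ i, ∑ j, ((M i j + M j i) / 2) ^ 2
        = 1 / 2 * (∑ i, ∑ j, M i j * M i j) + 1 / 2 * (∑ i, ∑ j, M i j * M j i) := by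
      have e2 : ∑ i, ∑ j, M j i * M j i = ∑ i, ∑ j, M i j * M i j := Finset.sum_comm
      have e3 : ∑ i, ∑ j, ((M i j + M j i) / 2) ^ 2 = 1 / 4 * (∑ i, ∑ j, M i j * M i j)
          + 1 / 2 * (∑ i, ∑ j, M i j * M j i) + 1 / 4 * (∑ i, ∑ j, M j i * M j i) := by
        simp only [Finset.mul_sum, ← Finset.sum_add_distrib]
        refine Finset.sum_congr rfl fun i _ => Finset.sum_congr rfl fun j _ => ?_
        ring
      rw [e3, e2]; ring
    have e4 : ∑ i, ∑ j, M i j ^ 2 = ∑ i, ∑ j, M i j * M i j := by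
      refine Finset.sum_congr rfl fun i _ => Finset.sum_congr rfl fun j _ => ?_
      ring
    rw [e1, e4]
    unfold phi
    rw [hμK]
    field_simp
    ring
  have h3 : ∫ x in ball (0 : E n) 1, K * phi μ (grad u x)
      = K * (∫ x in ball (0 : E n) 1, ∑ i, ∑ j, ((grad u x i j + grad u x j i) / 2) ^ 2)
        - ∫ x in ball (0 : E n) 1, ∑ i, ∑ j, grad u x i j ^ 2 := by
    simp only [hpt]
    rw [integral_sub (h2.const_mul K) h1, integral_const_mul]
  rw [integral_const_mul] at h3
  have h4 := mul_nonneg hK.le h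
  linarith

end Q187.Korn
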